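import Pool.Agent.PSQ.Base

/-!
# PSQ: the frozen statements of the algebra part
-/

set_option autoImplicit false

namespace PSQ

open Matrix Module Pool.Agent.Helper7

/-- M1. The first properties of the Lie algebra of symmetries. -/
def St_Inv : Prop := ∀ (κ : Type) [Fintype κ] [DecidableEq κ] (ϖ : ℂ) (P : PData κ ϖ)
  [DecidableEq P.ι] (n k : ℕ) (α : MultilinearMap ℂ (fun _ : Fin (2 * k) => W κ n) ℂ)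
  (ψ : Matrix P.ι P.ι ℚ), ϖ ≠ 0 → IsPsi P ψ → BetR P n k α → DRA n k α →
  GA0 ψ (DM P) (gM P n k α)

/-- M2. Replicas. -/
def St_Rep : Prop := ∀ (κ : Type) [Fintype κ] [DecidableEq κ] (ϖ : ℂ) (P : PData κ ϖ)
  [DecidableEq P.ι] (n k : ℕ) (α : MultilinearMap ℂ (fun _ : Fin (2 * k) => W κ n) ℂ),
  Repl (gM P n k α)

/-- M3. The commutant is a division algebra and its trace form is nondegenerate. -/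
def St_Trc : Prop := ∀ (ι : Type) [Fintype ι] [DecidableEq ι] (ψ : Matrix ι ι ℚ)
  (𝓓 : Set (Matrix ι ι ℚ)) (J : Matrix ι ι ℚ) (d : ℚ) (p : ℕ), DA ψ 𝓓 J d p →
  (∀ Z : Matrix ι ι ℚ, (∀ f ∈ 𝓓, Z * f = f * Z) → Z ≠ 0 → Z.det ≠ 0) ∧
  ∀ Z : Matrix ι ι ℂ, IsC 𝓓 Z → Z ≠ 0 → ∃ Z' : Matrix ι ι ℂ, IsC 𝓓 Z' ∧ (Z * Z').trace ≠ 0

/-- M4. Spectral decomposition of a rational element of the commutant. -/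
def St_Spc : Prop := ∀ (ι : Type) [Fintype ι] [DecidableEq ι] (ψ : Matrix ι ι ℚ)
  (𝓓 : Set (Matrix ι ι ℚ)) (J : Matrix ι ι ℚ) (d : ℚ) (p : ℕ) (z : ℂ) (Z : Matrix ι ι ℚ),
  DA ψ 𝓓 J d p → z ^ 2 = -(d : ℂ) → (∀ f ∈ 𝓓, Z * f = f * Z) →
  ∃ (S : Finset ℂ) (F : ℂ → Matrix ι ι ℂ), Spec J Z z S F

/-- M5. The eigenvalues are conjugate over `ℚ(z)`. -/
def St_Trn : Prop := ∀ (ι : Type) [Fintype ι] [DecidableEq ι] (ψ : Matrix ι ι ℚ)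
  (𝓓 : Set (Matrix ι ι ℚ)) (J : Matrix ι ι ℚ) (d : ℚ) (p : ℕ) (z : ℂ) (Z : Matrix ι ι ℚ)
  (S : Finset ℂ) (F : ℂ → Matrix ι ι ℂ),
  DA ψ 𝓓 J d p → z ^ 2 = -(d : ℂ) → (∀ f ∈ 𝓓, Z * f = f * Z) → Spec J Z z S F →
  ∀ x ∈ S, ∀ y ∈ S, ∃ σ : ℂ ≃+* ℂ, σ z = z ∧ σ x = y

/-- M6. A `p`-cycle. -/
def St_Cyc : Prop := ∀ (p : ℕ) [Fact p.Prime] (z : ℂ) (S : Finset ℂ), S.card = p →
  (∀ σ : ℂ ≃+* ℂ, σ z = z → ∀ x ∈ S, σ x ∈ S) →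
  (∀ x ∈ S, ∀ y ∈ S, ∃ σ : ℂ ≃+* ℂ, σ z = z ∧ σ x = y) →
  ∃ (σ : ℂ ≃+* ℂ) (x : ZMod p → ℂ), σ z = z ∧ Function.Injective x ∧ (∀ i, x i ∈ S) ∧
    (∀ y ∈ S, ∃ i, x i = y) ∧ ∀ i, σ (x i) = x (i + 1)

/-- M7. A rational element of the commutant outside `ℚ(J)` has `p` eigenvalues on the
`z`-eigenspace of `J`, each of multiplicity `p`. -/
def St_Eig : Prop := ∀ (ι : Type) [Fintype ι] [DecidableEq ι] (ψ : Matrix ι ι ℚ)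
  (𝓓 : Set (Matrix ι ι ℚ)) (J : Matrix ι ι ℚ) (d : ℚ) (p : ℕ) (z : ℂ) (Z : Matrix ι ι ℚ)
  (S : Finset ℂ) (F : ℂ → Matrix ι ι ℂ),
  DA ψ 𝓓 J d p → z ^ 2 = -(d : ℂ) → (∀ f ∈ 𝓓, Z * f = f * Z) →
  (¬ ∃ a b : ℚ, Z = a • (1 : Matrix ι ι ℚ) + b • J) → Spec J Z z S F →
  S.card = p ∧ ∀ x ∈ S, (F x).trace = p

/-- M8. The centraliser of such an element acts by scalars on its eigenspaces. -/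
def St_Cen : Prop := ∀ (ι : Type) [Fintype ι] [DecidableEq ι] (ψ : Matrix ι ι ℚ)
  (𝓓 : Set (Matrix ι ι ℚ)) (J : Matrix ι ι ℚ) (d : ℚ) (p : ℕ) (z : ℂ) (Y : Matrix ι ι ℚ)
  (S : Finset ℂ) (F : ℂ → Matrix ι ι ℂ),
  DA ψ 𝓓 J d p → z ^ 2 = -(d : ℂ) → (∀ f ∈ 𝓓, Y * f = f * Y) →
  (¬ ∃ a b : ℚ, Y = a • (1 : Matrix ι ι ℚ) + b • J) → Spec J Y z S F →
  ∀ Z : Matrix ι ι ℂ, IsC 𝓓 Z → Z * cc Y = cc Y * Z → ∀ x ∈ S, ∃ c : ℂ, Z * F x = c • F x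

/-- M9. There is a rational element of `𝔤` with multiplier zero outside `ℚ(J)`. -/
def St_Exi : Prop := ∀ (ι : Type) [Fintype ι] [DecidableEq ι] (ψ : Matrix ι ι ℚ)
  (𝓓 : Set (Matrix ι ι ℚ)) (J : Matrix ι ι ℚ) (d : ℚ) (p : ℕ)
  (𝔤 : Submodule ℂ (Matrix ι ι ℂ × ℂ)), DA ψ 𝓓 J d p → GA0 ψ 𝓓 𝔤 →
  ∃ Y : Matrix ι ι ℚ, (cc Y, (0 : ℂ)) ∈ 𝔤 ∧ ¬ ∃ a b : ℚ, Y = a • (1 : Matrix ι ι ℚ) + b • J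

/-- M10. The splitting. -/
def St_Spl : Prop := ∀ (ι : Type) [Fintype ι] [DecidableEq ι] (ψ : Matrix ι ι ℚ)
  (𝓓 : Set (Matrix ι ι ℚ)) (J : Matrix ι ι ℚ) (d : ℚ) (p : ℕ) [Fact p.Prime]
  (𝔤 : Submodule ℂ (Matrix ι ι ℂ × ℂ)) (z : ℂ), DA ψ 𝓓 J d p → GA0 ψ 𝓓 𝔤 → z ^ 2 = -(d : ℂ) →
  ∃ (σ : ℂ ≃+* ℂ) (x : ZMod p → ℂ) (E : Bool → ZMod p → Matrix ι ι ℂ), Spl ψ 𝓓 J d p 𝔤 z σ x E

/-- M11. Shift invariant subspaces. -/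
def St_Shf : Prop := ∀ (p : ℕ) [Fact p.Prime] (R : Submodule ℚ (ZMod p → ℚ)),
  (∀ a ∈ R, (fun i => a (i - 1)) ∈ R) → ∀ a ∈ R, (∃ i j, a i ≠ a j) →
  (Pi.single 0 1 - Pi.single 1 1 : ZMod p → ℚ) ∈ R

/-- M12. The traceless diagonal elements are in `𝔤`. -/
def St_Hq : Prop := ∀ (ι : Type) [Fintype ι] [DecidableEq ι] (ψ : Matrix ι ι ℚ)
  (𝓓 : Set (Matrix ι ι ℚ)) (J : Matrix ι ι ℚ) (d : ℚ) (p : ℕ) [Fact p.Prime]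
  (𝔤 : Submodule ℂ (Matrix ι ι ℂ × ℂ)) (z : ℂ) (σ : ℂ ≃+* ℂ) (x : ZMod p → ℂ)
  (E : Bool → ZMod p → Matrix ι ι ℂ), GA ψ 𝓓 𝔤 → Spl ψ 𝓓 J d p 𝔤 z σ x E →
  ∀ q : ZMod p → ℂ, ∑ i, q i = 0 → (∑ i, q i • (E true i - E false i), (0 : ℂ)) ∈ 𝔤

/-- M13. The off-diagonal components of elements of `𝔤` are in `𝔤`. -/
def St_Dia : Prop := ∀ (ι : Type) [Fintype ι] [DecidableEq ι] (ψ : Matrix ι ι ℚ)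
  (𝓓 : Set (Matrix ι ι ℚ)) (J : Matrix ι ι ℚ) (d : ℚ) (p : ℕ) [Fact p.Prime]
  (𝔤 : Submodule ℂ (Matrix ι ι ℂ × ℂ)) (z : ℂ) (σ : ℂ ≃+* ℂ) (x : ZMod p → ℂ)
  (E : Bool → ZMod p → Matrix ι ι ℂ), DA ψ 𝓓 J d p → GA ψ 𝓓 𝔤 → Spl ψ 𝓓 J d p 𝔤 z σ x E →
  ∀ X ∈ 𝔤, ∀ i j, i ≠ j →
    (E true i * X.1 * E true j + E false j * X.1 * E false i, (0 : ℂ)) ∈ 𝔤

/-- M14. The `𝓓`-linear maps between the eigenspaces. -/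
def St_Hom : Prop := ∀ (ι : Type) [Fintype ι] [DecidableEq ι] (ψ : Matrix ι ι ℚ)
  (𝓓 : Set (Matrix ι ι ℚ)) (J : Matrix ι ι ℚ) (d : ℚ) (p : ℕ) [Fact p.Prime]
  (𝔤 : Submodule ℂ (Matrix ι ι ℂ × ℂ)) (z : ℂ) (σ : ℂ ≃+* ℂ) (x : ZMod p → ℂ)
  (E : Bool → ZMod p → Matrix ι ι ℂ), DA ψ 𝓓 J d p → Spl ψ 𝓓 J d p 𝔤 z σ x E →
  ∀ (i j : ZMod p) (a : Matrix ι ι ℂ), IsC 𝓓 a → a ≠ 0 → E true i * a = a → a * E true j = a →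
    (∃ a' : Matrix ι ι ℂ, IsC 𝓓 a' ∧ E true j * a' = a' ∧ a' * E true i = a' ∧
      a * a' = E true i ∧ a' * a = E true j) ∧
    ∀ b : Matrix ι ι ℂ, IsC 𝓓 b → E true i * b = b → b * E true j = b → ∃ c : ℂ, b = c • a

/-- M15. The off-diagonal part. -/
def St_Off : Prop := ∀ (ι : Type) [Fintype ι] [DecidableEq ι] (ψ : Matrix ι ι ℚ)
  (𝓓 : Set (Matrix ι ι ℚ)) (J : Matrix ι ι ℚ) (d : ℚ) (p : ℕ) [Fact p.Prime]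
  (𝔤 : Submodule ℂ (Matrix ι ι ℂ × ℂ)) (z : ℂ) (σ : ℂ ≃+* ℂ) (x : ZMod p → ℂ)
  (E : Bool → ZMod p → Matrix ι ι ℂ), DA ψ 𝓓 J d p → GA ψ 𝓓 𝔤 → Spl ψ 𝓓 J d p 𝔤 z σ x E →
  (∀ i j, ∃ a : Matrix ι ι ℂ, IsC 𝓓 a ∧ a ≠ 0 ∧ E true i * a = a ∧ a * E true j = a) ∧
  ∀ (i j : ZMod p) (a : Matrix ι ι ℂ), i ≠ j → IsC 𝓓 a → E true i * a = a → a * E true j = a →
    ∃ X ∈ 𝔤, X.2 = 0 ∧ ∀ k, X.1 * E true k = if k = j then a else 0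

/-- M16. The frame. -/
def St_Frm : Prop := ∀ (ι : Type) [Fintype ι] [DecidableEq ι] (ψ : Matrix ι ι ℚ)
  (𝓓 : Set (Matrix ι ι ℚ)) (J : Matrix ι ι ℚ) (d : ℚ) (p : ℕ) [Fact p.Prime]
  (𝔤 : Submodule ℂ (Matrix ι ι ℂ × ℂ)) (z : ℂ) (σ : ℂ ≃+* ℂ) (x : ZMod p → ℂ)
  (E : Bool → ZMod p → Matrix ι ι ℂ), DA ψ 𝓓 J d p → GA ψ 𝓓 𝔤 → Spl ψ 𝓓 J d p 𝔤 z σ x E →
  ∃ e : Basis (Bool × Fin p × Fin p) ℂ (ι → ℂ), Fr ψ J d p 𝔤 z e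

/-- M17. The centre: from `sl_p` to `gl_p`. -/
def St_Gl : Prop := ∀ (ι : Type) [Fintype ι] [DecidableEq ι] (ψ : Matrix ι ι ℚ)
  (𝓓 : Set (Matrix ι ι ℚ)) (J : Matrix ι ι ℚ) (d : ℚ) (p : ℕ) [Fact p.Prime]
  (𝔤 : Submodule ℂ (Matrix ι ι ℂ × ℂ)) (z : ℂ) (e : Basis (Bool × Fin p × Fin p) ℂ (ι → ℂ)),
  GA0 ψ 𝓓 𝔤 → Fr ψ J d p 𝔤 z e → (∃ X ∈ 𝔤, (X.1 * cc J).trace ≠ 0) →
  ∀ y : Matrix (Fin p) (Fin p) ℂ, ∃ X ∈ 𝔤, X.2 = 0 ∧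
    ∀ j μ, X.1 *ᵥ e (true, j, μ) = ∑ i, y i j • e (true, i, μ)

/-- M18. The first fundamental theorem in a frame. -/
def St_Fft : Prop := ∀ (U : Type) [AddCommGroup U] [Module ℂ U] (τ : Type) [Fintype τ]
  [DecidableEq τ] (p N : ℕ) (e : Basis (Bool × τ × Fin p) ℂ U)
  (α : MultilinearMap ℂ (fun _ : Fin N => U) ℂ),
  (∀ (y : Matrix (Fin p) (Fin p) ℂ) (L : Module.End ℂ U),
    (∀ t j, L (e (true, t, j)) = ∑ i, y i j • e (true, t, i)) →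
    (∀ t i, L (e (false, t, i)) = -∑ j, y i j • e (false, t, j)) → actForm L α = 0) →
  (fun v => α v) ∈ Submodule.span ℂ {Φ | PP {β : U →ₗ[ℂ] U →ₗ[ℂ] ℂ | ∃ t t' : τ, ∀ u v,
    β u v = ∑ i, e.repr u (true, t, i) * e.repr v (false, t', i)} Finset.univ Φ}

/-- M19. The first fundamental theorem for the powers. -/
def St_Fam : Prop := ∀ (κ : Type) [Fintype κ] [DecidableEq κ] (ϖ : ℂ) (P : PData κ ϖ)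
  (n k p : ℕ) (α : MultilinearMap ℂ (fun _ : Fin (2 * k) => W κ n) ℂ)
  (e : Basis (Bool × Fin p × Fin p) ℂ (κ → ℂ)),
  (∀ X c, Inv P n k α X c → ∃ y : Matrix (Fin p) (Fin p) ℂ,
    (∀ j μ, X (e (true, j, μ)) = ∑ i, y i j • e (true, i, μ)) ∧
    ∀ i μ, X (e (false, i, μ)) = c • e (false, i, μ) - ∑ j, y i j • e (false, j, μ)) →
  (∀ y : Matrix (Fin p) (Fin p) ℂ, ∃ X, Inv P n k α X 0 ∧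
    ∀ j μ, X (e (true, j, μ)) = ∑ i, y i j • e (true, i, μ)) →
  α ∈ Submodule.span ℂ {M | ∃ (π : Equiv.Perm (Fin (2 * k)))
    (β : Fin k → (W κ n →ₗ[ℂ] W κ n →ₗ[ℂ] ℂ)),
    (∀ a, β a ∈ invB (fun _ : Unit => n) (fun _ => P) α) ∧ M = (prodBilin β).domDomCongr π}

/-- M20. The algebra part. -/
def St_Alg : Prop := ∀ (ι : Type) [Fintype ι] [DecidableEq ι] (ψ : Matrix ι ι ℚ)
  (𝓓 : Set (Matrix ι ι ℚ)) (J : Matrix ι ι ℚ) (d : ℚ) (p : ℕ) [Fact p.Prime]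
  (𝔤 : Submodule ℂ (Matrix ι ι ℂ × ℂ)), DA ψ 𝓓 J d p → GA ψ 𝓓 𝔤 →
  (∃ X ∈ 𝔤, (X.1 * cc J).trace ≠ 0) →
  ∃ (z : ℂ) (e : Basis (Bool × Fin p × Fin p) ℂ (ι → ℂ)), Fr ψ J d p 𝔤 z e ∧
  ∀ y : Matrix (Fin p) (Fin p) ℂ, ∃ X ∈ 𝔤, X.2 = 0 ∧
    ∀ j μ, X.1 *ᵥ e (true, j, μ) = ∑ i, y i j • e (true, i, μ)

/-- M21. The theorem for abstract data. -/
def St_Main : Prop := ∀ (κ : Type) [Fintype κ] [DecidableEq κ] (ϖ : ℂ) (P : PData κ ϖ)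
  [DecidableEq P.ι] (ψ J : Matrix P.ι P.ι ℚ) (d : ℚ) (p : ℕ), ϖ ≠ 0 → IsPsi P ψ →
  DA ψ (DM P) J d p →
  (∃ D : Derivation ℚ ℂ ℂ, LinearMap.trace ℂ (κ → ℂ) (P.N D * tl P (cc J)) ≠ 0) →
  ∀ (n k : ℕ) (α : (W κ n) [⋀^Fin (2 * k)]→ₗ[ℂ] ℂ),
  (∀ v : Fin (2 * k) → W κ n, (∀ r, IsRatP (fun _ : Unit => n) (fun _ => P) (v r)) →
    ∃ q : ℚ, α v = ϖ ^ k * q) →
  (∀ v : Fin (2 * k) → W κ n, (∀ r i m j, IsAlgebraic ℚ (v r i m j)) → IsAlgebraic ℚ (α v)) →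
  α ∈ Submodule.span ℚ {ω | ∃ γ : Fin k → (W κ n →ₗ[ℂ] W κ n →ₗ[ℂ] ℂ),
    (∀ a, γ a ∈ GW (fun _ : Unit => n) (fun _ => P)) ∧ ω = wedge γ}

end PSQ
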