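import Pool.Agent.PSQ.Types
import Pool.Agent.PSQ.St
import Pool.Agent.Helper71.AF.Alg
import Pool.Agent.Helper7.J9

set_option autoImplicit false

/-!
# PSQ / Bridge

From abelian varieties to matrices.
-/

namespace Pool.Agent.PSQ

open Matrix Module Pool.Agent.GPC Pool.Agent.Helper7 _root_.PSQ

section mat

variable {κ : Type} [Fintype κ] [DecidableEq κ] {ϖ : ℂ} (P : PData κ ϖ)

/-- a rational vector -/
noncomputable def vec (v : P.ι → ℚ) : κ → ℂ := ∑ i, (v i : ℂ) • P.bB i

theorem vec_mem (v : P.ι → ℚ) : vec P v ∈ P.Q := by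
  unfold vec
  exact Submodule.sum_mem _ fun i _ => P.rat_smul_mem _ _ (P.basis_mem i)

theorem repr_vec (v : P.ι → ℚ) (i : P.ι) : P.bB.repr (vec P v) i = v i := by
  unfold vec
  rw [P.bB.repr_sum_self]

theorem vec_inj {v w : P.ι → ℚ} (h : vec P v = vec P w) : v = w := by
  funext i
  have := congrArg (fun x => P.bB.repr x i) h
  simp only [repr_vec] at this
  exact_mod_cast this

theorem exists_vec {x : κ → ℂ} (hx : x ∈ P.Q) : ∃ v, vec P v = x := by
  choose v hv using fun i => P.repr_rat x hx i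
  refine ⟨v, ?_⟩
  rw [← P.bB.sum_repr x]
  unfold vec
  exact Finset.sum_congr rfl fun i _ => by rw [hv]

variable [DecidableEq P.ι]

theorem tl_bB (M : Matrix P.ι P.ι ℂ) (j : P.ι) : tl P M (P.bB j) = ∑ i, M i j • P.bB i := by
  unfold tl
  rw [Matrix.toLin_self]

theorem tl_vec (M : Matrix P.ι P.ι ℚ) (v : P.ι → ℚ) : tl P (cc M) (vec P v) = vec P (M *ᵥ v) := by
  unfold vec
  rw [map_sum]
  simp only [map_smul, tl_bB]
  simp only [Finset.smul_sum, smul_smul]
  rw [Finset.sum_comm]
  refine Finset.sum_congr rfl fun i _ => ?_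
  rw [← Finset.sum_smul]
  congr 1
  simp only [Matrix.mulVec, dotProduct]
  push_cast
  refine Finset.sum_congr rfl fun j _ => ?_
  rw [mul_comm]
  rfl

theorem tl_inj {M N : Matrix P.ι P.ι ℂ} (h : tl P M = tl P N) : M = N :=
  (Matrix.toLin P.bB P.bB).injective h

theorem tl_mul (M N : Matrix P.ι P.ι ℂ) : tl P (M * N) = tl P M * tl P N := by
  unfold tl
  exact Matrix.toLin_mul P.bB P.bB P.bB M N

theorem tl_one : tl P 1 = 1 := Matrix.toLin_one P.bB

theorem tl_sub (M N : Matrix P.ι P.ι ℂ) : tl P (M - N) = tl P M - tl P N := map_sub _ _ _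

theorem tl_add (M N : Matrix P.ι P.ι ℂ) : tl P (M + N) = tl P M + tl P N := map_add _ _ _

theorem tl_smul (c : ℂ) (M : Matrix P.ι P.ι ℂ) : tl P (c • M) = c • tl P M := map_smul _ _ _

theorem cc_apply {ι : Type} [Fintype ι] [DecidableEq ι] (M : Matrix ι ι ℚ) (i j : ι) :
    cc M i j = (M i j : ℂ) := rfl

theorem cc_inj {ι : Type} [Fintype ι] [DecidableEq ι] {M N : Matrix ι ι ℚ} (h : cc M = cc N) :
    M = N := by
  ext i j
  have := congrFun (congrFun h i) j
  rw [cc_apply, cc_apply] at this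
  exact_mod_cast this

theorem cc_smul {ι : Type} [Fintype ι] [DecidableEq ι] (q : ℚ) (M : Matrix ι ι ℚ) :
    cc (q • M) = (q : ℂ) • cc M := by
  ext i j
  rw [cc_apply, Matrix.smul_apply, Matrix.smul_apply, cc_apply, smul_eq_mul, smul_eq_mul]
  push_cast
  ring

/-- rational endomorphisms are rational matrices -/
theorem exists_mat {f : Module.End ℂ (κ → ℂ)} (hf : ∀ v ∈ P.Q, f v ∈ P.Q) :
    ∃ M : Matrix P.ι P.ι ℚ, tl P (cc M) = f := by
  choose M hM using fun i j => P.repr_rat _ (hf _ (P.basis_mem j)) i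
  refine ⟨Matrix.of M, ?_⟩
  apply P.bB.ext
  intro j
  rw [tl_bB, ← P.bB.sum_repr (f (P.bB j))]
  refine Finset.sum_congr rfl fun i _ => ?_
  rw [hM, cc_apply]
  rfl

end mat

/-- the matrices of an abelian variety of type `PSq` -/
theorem exists_DA (A : AbVar) (p : ℕ) (d : ℚ) (J : Module.End ℂ A.H1) (h : A.IsPSq p d J)
    [DecidableEq (pData A).ι] :
    ∃ ψ M : Matrix (pData A).ι (pData A).ι ℚ, IsPsi (pData A) ψ ∧
      DA ψ (DM (pData A)) M d p ∧ tl (pData A) (cc M) = J := by
  classical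
  obtain ⟨P, hP⟩ : ∃ P, P = pData A := ⟨_, rfl⟩
  have hend : ∀ f : Module.End ℂ A.H1, A.IsEnd f → IsDRB (pData A) (pData A) f :=
    fun f hf => isDRB_of_isEnd A f hf
  -- the polarisation
  choose ψ hψ using fun i j => (pData A).hψQ _ ((pData A).basis_mem i) _ ((pData A).basis_mem j)
  obtain ⟨M, hM⟩ := exists_mat (pData A) (f := J) (hend J h.endo).rat
  have hJD : IsDRB (pData A) (pData A) (tl (pData A) (cc M)) := by rw [hM]; exact hend J h.endo
  have hφ : (2 * Real.pi * Complex.I : ℂ) ≠ 0 := Complex.two_pi_I_ne_zero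
  -- functions as linear maps
  have hlin : ∀ f : Matrix (pData A).ι (pData A).ι ℚ, f ∈ DM (pData A) →
      A.IsEnd (tl (pData A) (cc f)) := fun f hf => isEnd_of_isDRB A _ hf
  have hmem : ∀ f : A.H1 → A.H1, A.IsEnd f → ∃ N ∈ DM (pData A), ∀ v,
      tl (pData A) (cc N) v = f v := by
    intro f hf
    have h1 : IsDRB (pData A) (pData A) (IsLinearMap.mk' f hf.linear) := isDRB_of_isEnd A _ hf
    obtain ⟨N, hN⟩ := exists_mat (pData A) (f := IsLinearMap.mk' f hf.linear) h1.rat
    refine ⟨N, ?_, fun v => by rw [hN]; rfl⟩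
    show IsDRB _ _ _
    rw [hN]
    exact h1
  have hcard : Fintype.card (pData A).ι = 2 * p ^ 2 := by
    rw [← Module.finrank_eq_card_basis (pData A).bB, Module.finrank_fintype_fun_eq_card,
      card_index, h.dim]
  have hpsi : IsPsi (pData A) (Matrix.of ψ) := fun i j => hψ i j
  have hψv : ∀ (u v : (pData A).ι → ℂ), (pData A).ψ (∑ i, u i • (pData A).bB i)
      (∑ j, v j • (pData A).bB j) = (2 * Real.pi * Complex.I : ℂ) *
        (u ⬝ᵥ (cc (Matrix.of ψ)) *ᵥ v) := by
    intro u v
    rw [map_sum (pData A).ψ, LinearMap.sum_apply]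
    simp only [map_smul, LinearMap.smul_apply, map_sum, smul_eq_mul, hψ]
    simp only [Matrix.mulVec, dotProduct, Finset.mul_sum]
    refine Finset.sum_congr rfl fun i _ => Finset.sum_congr rfl fun j _ => ?_
    rw [cc_apply, Matrix.of_apply]
    ring
  refine ⟨Matrix.of ψ, M, hpsi, {
    prime := h.prime
    card := hcard
    nd := ?_
    dpos := h.pos
    JD := hJD
    J2 := ?_
    Jpsi := ?_
    Jc := ?_
    sub := ?_
    mul := ?_
    trans := ?_
    div := ?_
    nc := ?_
    cen := ?_ }, hM⟩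
  · -- nondegenerate
    intro hdet
    have hdet' : (cc (Matrix.of ψ)).det = 0 := by
      have := RingHom.map_det (algebraMap ℚ ℂ) (Matrix.of ψ)
      rw [hdet, map_zero] at this
      exact this.symm
    obtain ⟨v, hv0, hv⟩ := Matrix.exists_mulVec_eq_zero_iff.mpr hdet'
    apply hv0
    have h1 : ∑ j, v j • (pData A).bB j = 0 := by
      apply Pool.Agent.Helper71.AF.ndr (pData A)
      intro u
      rw [← (pData A).bB.sum_repr u, hψv, hv, dotProduct_zero, mul_zero]
    have h2 := Fintype.linearIndependent_iff.mp (pData A).bB.linearIndependent v h1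
    exact funext h2
  · apply cc_inj
    apply tl_inj (pData A)
    rw [map_mul, tl_mul, hM]
    apply LinearMap.ext
    intro v
    have h1 := h.sq v
    have h2 : cc (-(d • (1 : Matrix (pData A).ι (pData A).ι ℚ))) =
        (-(d : ℂ)) • (1 : Matrix (pData A).ι (pData A).ι ℂ) := by
      rw [map_neg, cc_smul, map_one, neg_smul]
    rw [h2, tl_smul, tl_one]
    exact h1
  · -- adjoint
    have h1 : ∀ u v : (pData A).ι → ℂ, u ⬝ᵥ ((cc M)ᵀ * cc (Matrix.of ψ)) *ᵥ v =
        u ⬝ᵥ (-(cc (Matrix.of ψ) * cc M)) *ᵥ v := by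
      intro u v
      have h2 := h.adj (∑ i, u i • (pData A).bB i) (∑ j, v j • (pData A).bB j)
      have hJ : ∀ w : (pData A).ι → ℂ, J (∑ i, w i • (pData A).bB i) =
          ∑ i, ((cc M) *ᵥ w) i • (pData A).bB i := by
        intro w
        rw [← hM, map_sum]
        simp only [map_smul, tl_bB, Finset.smul_sum, smul_smul]
        rw [Finset.sum_comm]
        refine Finset.sum_congr rfl fun i _ => ?_
        rw [← Finset.sum_smul]
        congr 1
        simp only [Matrix.mulVec, dotProduct]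
        exact Finset.sum_congr rfl fun j _ => mul_comm _ _
      rw [hJ, hJ, ← pData_ψ, ← pData_ψ, hψv, hψv] at h2
      have h3 : ((cc M) *ᵥ u) ⬝ᵥ cc (Matrix.of ψ) *ᵥ v =
          - (u ⬝ᵥ cc (Matrix.of ψ) *ᵥ ((cc M) *ᵥ v)) := by
        apply mul_left_cancel₀ hφ
        rw [h2]
        ring
      rw [← Matrix.mulVec_mulVec, Matrix.neg_mulVec, dotProduct_neg, ← Matrix.mulVec_mulVec,
        ← h3, Matrix.dotProduct_mulVec, Matrix.vecMul_transpose]
    apply cc_inj
    have h4 : (cc M)ᵀ * cc (Matrix.of ψ) = -(cc (Matrix.of ψ) * cc M) := by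
      ext i j
      have h5 := h1 (Pi.single i 1) (Pi.single j 1)
      rw [Matrix.mulVec_single_one, Matrix.mulVec_single_one, single_one_dotProduct,
        single_one_dotProduct] at h5
      exact h5
    have h6 : cc (Mᵀ) = (cc M)ᵀ := rfl
    rw [map_mul, h6, h4, map_neg, map_mul]
  · intro f hf
    apply cc_inj
    apply tl_inj (pData A)
    rw [map_mul, map_mul, tl_mul, tl_mul, hM]
    exact LinearMap.ext fun v => h.comm _ (hlin f hf) v
  · intro f hf g hg
    show IsDRB _ _ _
    rw [map_sub, tl_sub]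
    exact (Pool.Agent.Helper71.AF.DD (pData A)).sub_mem hf hg
  · intro f hf g hg
    show IsDRB _ _ _
    rw [map_mul, tl_mul]
    exact (Pool.Agent.Helper71.AF.DD (pData A)).mul_mem hf hg
  · intro v w hv
    obtain ⟨f, hf, hfv⟩ := h.trans (vec (pData A) v) (vec (pData A) w)
      ((mem_pData_Q A _).1 (vec_mem _ v)) (fun h0 => hv (vec_inj (pData A) (by
        rw [h0]; unfold vec; simp))) ((mem_pData_Q A _).1 (vec_mem _ w))
    obtain ⟨N, hN, hNf⟩ := hmem f hf
    refine ⟨N, hN, vec_inj (pData A) ?_⟩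
    rw [← tl_vec, hNf, hfv]
  · intro f hf hf0 hdet
    have hinj := h.inj _ (hlin f hf) (by
      by_contra hcon
      push Not at hcon
      apply hf0
      apply cc_inj
      apply tl_inj (pData A)
      rw [map_zero]
      have : tl (pData A) (0 : Matrix (pData A).ι (pData A).ι ℂ) = 0 := map_zero _
      rw [this]
      exact LinearMap.ext hcon)
    obtain ⟨v, hv0, hv⟩ := Matrix.exists_mulVec_eq_zero_iff.mpr hdet
    apply hv0
    apply vec_inj (pData A)
    have h0 : vec (pData A) 0 = 0 := by unfold vec; simp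
    rw [h0]
    apply hinj
    rw [tl_vec, hv, h0, map_zero]
  · obtain ⟨f, g, hf, hg, v, hv⟩ := h.nc
    obtain ⟨F, hF, hFf⟩ := hmem f hf
    obtain ⟨G, hG, hGg⟩ := hmem g hg
    refine ⟨F, hF, G, hG, fun hFG => hv ?_⟩
    have h1 : tl (pData A) (cc (F * G)) v = tl (pData A) (cc (G * F)) v := by rw [hFG]
    rw [map_mul, map_mul, tl_mul, tl_mul] at h1
    have h2 : tl (pData A) (cc F) (tl (pData A) (cc G) v) =
        tl (pData A) (cc G) (tl (pData A) (cc F) v) := h1
    rwa [hGg, hFf, hFf, hGg] at h2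
  · intro f hf hfc
    obtain ⟨a, b, hab⟩ := h.center _ (hlin f hf) (fun g hg v => by
      obtain ⟨G, hG, hGg⟩ := hmem g hg
      have h1 : tl (pData A) (cc (f * G)) v = tl (pData A) (cc (G * f)) v := by rw [hfc G hG]
      rw [map_mul, map_mul, tl_mul, tl_mul] at h1
      have h2 : tl (pData A) (cc f) (tl (pData A) (cc G) v) =
          tl (pData A) (cc G) (tl (pData A) (cc f) v) := h1
      rwa [hGg, hGg] at h2)
    refine ⟨a, b, ?_⟩
    apply cc_inj
    apply tl_inj (pData A)
    rw [map_add, cc_smul, cc_smul, tl_add, tl_smul, tl_smul, map_one, tl_one, hM]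
    exact LinearMap.ext hab

/-- the algebra part for abelian varieties, from the abstract theorem -/
theorem alg_of (hMain : _root_.PSQ.St_Main) : Pool.Agent.GPC.St_Alg := by
  classical
  intro A p d J h hδ m k α hα
  obtain ⟨ψ, M, hψ, hDA, hM⟩ := exists_DA A p d J h
  obtain ⟨hα1, hα2⟩ := hα
  refine isDivisorial_of_span (fun _ : Unit => A) (fun _ => m) k α ?_
  refine hMain (Fin A.g ⊕ Fin A.g) (2 * Real.pi * Complex.I) (pData A) ψ M d p
    Complex.two_pi_I_ne_zero hψ hDA ?_ m k α (fun v hv => ?_) (fun v hv => ?_)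
  · rw [hM]
    exact hδ
  · apply hα2
    intro r i m
    exact (mem_pData_Q _ _).mp (hv r i m)
  · exact hα1 v fun r i m j => hv r i m j

end Pool.Agent.PSQ
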