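import Pool.Agent.PSQ.St

/-!
# PSQ: the theorem for abstract data (M21)
-/

set_option autoImplicit false

namespace PSQ

open Matrix Module Pool.Agent.Helper7

section

variable {κ : Type} [Fintype κ] [DecidableEq κ] {ϖ : ℂ}

/-- The end of the proof: from complex combinations of products of invariant bilinear forms to
rational combinations of products of divisor classes. -/
theorem descent (P : PData κ ϖ) (hϖ : ϖ ≠ 0) (n : ℕ) {k : ℕ} (α : (W κ n) [⋀^Fin (2 * k)]→ₗ[ℂ] ℂ)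
    (hB : ∀ v : Fin (2 * k) → W κ n, (∀ r, IsRatP (fun _ : Unit => n) (fun _ => P) (v r)) →
      ∃ q : ℚ, α v = ϖ ^ k * q)
    (hA : ∀ v : Fin (2 * k) → W κ n, (∀ r i m j, IsAlgebraic ℚ (v r i m j)) →
      IsAlgebraic ℚ (α v))
    (h0 : (α : MultilinearMap ℂ (fun _ : Fin (2 * k) => W κ n) ℂ) ∈ Submodule.span ℂ
      {M | ∃ (π : Equiv.Perm (Fin (2 * k))) (β : Fin k → (W κ n →ₗ[ℂ] W κ n →ₗ[ℂ] ℂ)),
        (∀ a, β a ∈ invB (fun _ : Unit => n) (fun _ => P)
          (α : MultilinearMap ℂ (fun _ : Fin (2 * k) => W κ n) ℂ)) ∧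
          M = (prodBilin β).domDomCongr π}) :
    α ∈ Submodule.span ℚ {ω | ∃ γ : Fin k → (W κ n →ₗ[ℂ] W κ n →ₗ[ℂ] ℂ),
      (∀ a, γ a ∈ GW (fun _ : Unit => n) (fun _ => P)) ∧ ω = wedge γ} := by
  classical
  have hgen : ∀ M ∈ Submodule.span ℂ
      {M | ∃ (π : Equiv.Perm (Fin (2 * k))) (β : Fin k → (W κ n →ₗ[ℂ] W κ n →ₗ[ℂ] ℂ)),
      (∀ a, β a ∈ invB (fun _ : Unit => n) (fun _ => P)
        (α : MultilinearMap ℂ (fun _ : Fin (2 * k) => W κ n) ℂ)) ∧
        M = (prodBilin β).domDomCongr π},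
      MultilinearMap.alternatization M ∈ Submodule.span ℂ
        {ω | ∃ γ : Fin k → (W κ n →ₗ[ℂ] W κ n →ₗ[ℂ] ℂ),
        (∀ a, γ a ∈ GW (fun _ : Unit => n) (fun _ => P)) ∧ ω = wedge γ} := by
    intro M hM
    induction hM using Submodule.span_induction with
    | mem M hM =>
      obtain ⟨π, β, hβ, rfl⟩ := hM
      rw [alternatization_domDomCongr]
      have h4 : wedge β ∈ Submodule.span ℂ
        {ω | ∃ γ : Fin k → (W κ n →ₗ[ℂ] W κ n →ₗ[ℂ] ℂ),
        (∀ a, γ a ∈ GW (fun _ : Unit => n) (fun _ => P)) ∧ ω = wedge γ} :=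
        wedge_mem_span (GW (fun _ : Unit => n) (fun _ => P)) β
          (fun a => inv_mem_GW (fun _ : Unit => n) (fun _ => P) _ hϖ hB hA _ (hβ a))
      rcases Int.units_eq_one_or (Equiv.Perm.sign π) with h | h
      · rw [h, one_smul]; exact h4
      · rw [h, Units.neg_smul, one_smul]; exact Submodule.neg_mem _ h4
    | zero => rw [map_zero]; exact Submodule.zero_mem _
    | add x y _ _ hx hy => rw [map_add]; exact Submodule.add_mem _ hx hy
    | smul c x _ hx => rw [alternatization_smul]; exact Submodule.smul_mem _ _ hx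
  have h1 : α ∈ Submodule.span ℂ {ω | ∃ γ : Fin k → (W κ n →ₗ[ℂ] W κ n →ₗ[ℂ] ℂ),
      (∀ a, γ a ∈ GW (fun _ : Unit => n) (fun _ => P)) ∧ ω = wedge γ} := by
    have h2 := hgen _ h0
    rw [AlternatingMap.coe_alternatization, ← Nat.cast_smul_eq_nsmul ℂ] at h2
    have h3 := Submodule.smul_mem _
      (((Nat.factorial (Fintype.card (Fin (2 * k)))) : ℂ)⁻¹) h2
    rw [smul_smul, inv_mul_cancel₀ (Nat.cast_ne_zero.mpr (Nat.factorial_ne_zero _)),
      one_smul] at h3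
    exact h3
  refine rational_descent (FBP (fun _ : Unit => n) (fun _ => P)) (ϖ ^ k) (pow_ne_zero _ hϖ) _ ?_ α
    (fun s => hB _ (fun r => FBP_isRatP (fun _ : Unit => n) (fun _ => P) _)) h1
  rintro ω ⟨γ, hγ, rfl⟩ s
  exact wedge_rational' (fun _ : Unit => n) (fun _ => P) γ hγ _
    (fun r => FBP_isRatP (fun _ : Unit => n) (fun _ => P) _)

lemma tl_mulVec (P : PData κ ϖ) [DecidableEq P.ι] (M : Matrix P.ι P.ι ℂ) (v : P.ι → ℂ) :
    tl P M (P.bB.equivFun.symm v) = P.bB.equivFun.symm (M *ᵥ v) := by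
  apply P.bB.equivFun.injective
  rw [LinearEquiv.apply_symm_apply]
  have h := LinearMap.toMatrix_mulVec_repr P.bB P.bB (tl P M) (P.bB.equivFun.symm v)
  rw [tl, LinearMap.toMatrix_toLin] at h
  have h2 : (P.bB.repr (P.bB.equivFun.symm v) : P.ι → ℂ) = v :=
    P.bB.equivFun.apply_symm_apply v
  rw [h2] at h
  exact h.symm

theorem thm_Main (hInv : St_Inv) (hRep : St_Rep) (hFam : St_Fam) (hAlg : St_Alg) : St_Main := by
  intro κ _ _ ϖ P _ ψ J d p hϖ hψ hD hT n k α hB hA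
  have : Fact p.Prime := ⟨hD.prime⟩
  have hG : GA ψ (DM P) (gM P n k (α : MultilinearMap ℂ (fun _ : Fin (2 * k) => W κ n) ℂ)) :=
    { toGA0 := hInv κ ϖ P n k _ ψ hϖ hψ hB hA
      rep := hRep κ ϖ P n k _ }
  obtain ⟨D, hD'⟩ := hT
  have hX : (LinearMap.toMatrix P.bB P.bB (P.N D), D ϖ / ϖ) ∈
      gM P n k (α : MultilinearMap ℂ (fun _ : Fin (2 * k) => W κ n) ℂ) := by
    rw [mem_gM, tl, Matrix.toLin_toMatrix]
    exact isInv_N (fun _ : Unit => n) (fun _ => P) _ hϖ hB hA D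
  obtain ⟨z, e, he, hgl⟩ := hAlg P.ι ψ (DM P) J d p _ hD hG ⟨_, hX, by
    rw [LinearMap.trace_eq_matrix_trace ℂ P.bB, LinearMap.toMatrix_mul, tl,
      LinearMap.toMatrix_toLin] at hD'
    exact hD'⟩
  apply descent P hϖ n α hB hA
  refine hFam κ ϖ P n k p _ (e.map P.bB.equivFun.symm) ?_ ?_
  · intro X c hXc
    have h1 : (LinearMap.toMatrix P.bB P.bB X, c) ∈
        gM P n k (α : MultilinearMap ℂ (fun _ : Fin (2 * k) => W κ n) ℂ) := by
      rw [mem_gM, tl, Matrix.toLin_toMatrix]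
      exact hXc
    obtain ⟨y, hy1, hy2⟩ := he.act _ h1
    have h3 : ∀ v, X (P.bB.equivFun.symm v) =
        P.bB.equivFun.symm (LinearMap.toMatrix P.bB P.bB X *ᵥ v) := by
      intro v
      rw [← tl_mulVec, tl, Matrix.toLin_toMatrix]
    refine ⟨y, fun j μ => ?_, fun i μ => ?_⟩
    · simp only [Basis.map_apply]
      rw [h3, hy1, map_sum]
      simp only [map_smul]
    · simp only [Basis.map_apply]
      rw [h3, hy2, map_sub, map_sum]
      simp only [map_smul]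
  · intro y
    obtain ⟨X, hX, hX2, hX1⟩ := hgl y
    refine ⟨tl P X.1, ?_, fun j μ => ?_⟩
    · have := (mem_gM P n k _ X).mp hX
      rwa [hX2] at this
    · simp only [Basis.map_apply]
      rw [tl_mulVec, hX1, map_sum]
      simp only [map_smul]

end

end PSQ
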