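import Pool.Agent.PSQ.Eig

/-!
# PSQ: the centraliser of a generating element acts by scalars on its eigenspaces (M8)
-/

set_option autoImplicit false

namespace PSQ

open Matrix Module Pool.Agent.Helper7

section

variable {ι : Type} [Fintype ι] [DecidableEq ι]

/-- A natural number avoiding finitely many coincidences. -/
lemma exists_sep (S T : Finset ℂ) : ∃ N : ℕ, ∀ x ∈ S, ∀ x' ∈ S, ∀ t ∈ T, ∀ t' ∈ T,
    t + N * x = t' + N * x' → x = x' := by
  classical
  let B : Finset ℂ := ((S ×ˢ S) ×ˢ (T ×ˢ T)).image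
    (fun q => (q.2.1 - q.2.2) / (q.1.2 - q.1.1))
  obtain ⟨_, ⟨N, rfl⟩, hN⟩ := (Set.infinite_range_of_injective
    (Nat.cast_injective (R := ℂ))).exists_notMem_finset B
  refine ⟨N, fun x hx x' hx' t ht t' ht' h => ?_⟩
  by_contra hne
  apply hN
  refine Finset.mem_image.2 ⟨((x, x'), (t, t')), Finset.mem_product.2
    ⟨Finset.mem_product.2 ⟨hx, hx'⟩, Finset.mem_product.2 ⟨ht, ht'⟩⟩, ?_⟩
  show (t - t') / (x' - x) = (N : ℂ)
  rw [div_eq_iff (sub_ne_zero.2 (Ne.symm hne))]
  linear_combination h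

/-- M8 for rational elements. -/
lemma cen_rat (hSpc : St_Spc) (hEig : St_Eig) {ψ : Matrix ι ι ℚ} {𝓓 : Set (Matrix ι ι ℚ)}
    {J : Matrix ι ι ℚ} {d : ℚ} {p : ℕ} {z : ℂ} {Y : Matrix ι ι ℚ} {S : Finset ℂ}
    {F : ℂ → Matrix ι ι ℂ} (hD : DA ψ 𝓓 J d p) (hz : z ^ 2 = -(d : ℂ))
    (hY : ∀ f ∈ 𝓓, Y * f = f * Y) (hYn : ¬ ∃ a b : ℚ, Y = a • (1 : Matrix ι ι ℚ) + b • J)
    (hS : Spec J Y z S F) (Z : Matrix ι ι ℚ) (hZ : ∀ f ∈ 𝓓, Z * f = f * Z) (hZY : Z * Y = Y * Z) :
    ∀ x ∈ S, ∃ c : ℂ, cc Z * F x = c • F x := by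
  classical
  obtain ⟨T, G, hT⟩ := hSpc ι ψ 𝓓 J d p z Z hD hz hZ
  obtain ⟨N, hN⟩ := exists_sep S T
  -- the projector to the eigenspace of `J`
  set P₀ : Matrix ι ι ℂ := (1 / 2 : ℂ) • (1 + z⁻¹ • cc J) with hP₀
  have hZ'com : ∀ f ∈ 𝓓, (Z + (N : ℚ) • Y) * f = f * (Z + (N : ℚ) • Y) := by
    intro f hf
    rw [add_mul, mul_add, Matrix.smul_mul, Matrix.mul_smul, hZ f hf, hY f hf]
  have hZe : cc Z = cc (Z + (N : ℚ) • Y) - (N : ℂ) • cc Y := by
    rw [map_add, cc_smul]
    push_cast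
    rw [add_sub_cancel_right]
  by_cases hcase : ∃ a b : ℚ, Z + (N : ℚ) • Y = a • (1 : Matrix ι ι ℚ) + b • J
  · obtain ⟨a, b, hab⟩ := hcase
    intro x hx
    refine ⟨a + b * z - N * x, ?_⟩
    rw [hZe, hab, map_add, cc_smul, cc_smul, cc_one, sub_mul, add_mul, Matrix.smul_mul, one_mul,
      Matrix.smul_mul, Matrix.smul_mul, hS.JF x hx, hS.ZF x hx, smul_smul, smul_smul, sub_smul,
      add_smul]
  · obtain ⟨S', F', hS'⟩ := hSpc ι ψ 𝓓 J d p z _ hD hz hZ'com
    have hc := (hEig ι ψ 𝓓 J d p z Y S F hD hz hY hYn hS).1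
    have hc' := (hEig ι ψ 𝓓 J d p z _ S' F' hD hz hZ'com hcase hS').1
    -- commutations
    have cJY : cc J * cc Y = cc Y * cc J := by
      rw [← cc_mulSM, ← cc_mulSM, hY J hD.JD]
    have cJZ : cc J * cc Z = cc Z * cc J := by
      rw [← cc_mulSM, ← cc_mulSM, hZ J hD.JD]
    have cYZ : cc Z * cc Y = cc Y * cc Z := by
      rw [← cc_mulSM, ← cc_mulSM, hZY]
    have cFJ : ∀ x ∈ S, cc J * F x = F x * cc J := hS.com (cc J) cJY rfl
    have cFZ : ∀ x ∈ S, cc Z * F x = F x * cc Z := hS.com (cc Z) cYZ cJZ.symm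
    have cFY : ∀ x ∈ S, cc Y * F x = F x * cc Y := hS.com (cc Y) rfl cJY.symm
    have cFZ' : ∀ x ∈ S, cc (Z + (N : ℚ) • Y) * F x = F x * cc (Z + (N : ℚ) • Y) := by
      intro x hx
      rw [map_add, cc_smul, add_mul, mul_add, Matrix.smul_mul, Matrix.mul_smul, cFZ x hx,
        cFY x hx]
    have cFF' : ∀ x ∈ S, ∀ x' ∈ S', F x * F' x' = F' x' * F x := by
      intro x hx x' hx'
      exact hS'.com (F x) (cFZ' x hx).symm (cFJ x hx).symm x' hx'
    have cGJ : ∀ t ∈ T, cc J * G t = G t * cc J := hT.com (cc J) cJZ rfl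
    have cGF : ∀ x ∈ S, ∀ t ∈ T, F x * G t = G t * F x := fun x hx t ht =>
      hT.com (F x) (cFZ x hx).symm (cFJ x hx).symm t ht
    have hP₀F : ∀ x ∈ S, P₀ * F x = F x := by
      intro x hx
      rw [hP₀, ← hS.sum, Finset.sum_mul, Finset.sum_eq_single x]
      · rw [hS.orth x hx x hx, if_pos rfl]
      · intro y hy hyx
        rw [hS.orth y hy x hx, if_neg hyx]
      · intro h
        exact absurd hx h
    have hP₀F' : ∀ x ∈ S', P₀ * F' x = F' x := by
      intro x hx
      rw [hP₀, ← hS'.sum, Finset.sum_mul, Finset.sum_eq_single x]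
      · rw [hS'.orth x hx x hx, if_pos rfl]
      · intro y hy hyx
        rw [hS'.orth y hy x hx, if_neg hyx]
      · intro h
        exact absurd hx h
    -- the eigenvalue `x'` of `Z'` determines the eigenvalue `x` of `Y`
    have hev : ∀ x ∈ S, ∀ x' ∈ S', F x * F' x' ≠ 0 → ∃ t ∈ T, x' = t + N * x := by
      intro x hx x' hx' hne
      have h1 : ∑ t ∈ T, G t * (F x * F' x') = F x * F' x' := by
        rw [← Finset.sum_mul, hT.sum, ← hP₀, ← mul_assoc, hP₀F x hx]
      obtain ⟨t, ht, ht0⟩ := Finset.exists_ne_zero_of_sum_ne_zero (by rw [h1]; exact hne)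
      refine ⟨t, ht, ?_⟩
      -- `Z'` acts on `G t * F x * F' x'` by `x'` and by `t + N x`
      have e1 : cc (Z + (N : ℚ) • Y) * (G t * (F x * F' x')) = (t + N * x) • (G t * (F x * F' x')) := by
        have hZZ : cc Z * (G t * (F x * F' x')) = t • (G t * (F x * F' x')) := by
          rw [← mul_assoc, hT.ZF t ht, Matrix.smul_mul]
        have hYY : cc Y * (G t * (F x * F' x')) = x • (G t * (F x * F' x')) := by
          rw [← mul_assoc (G t), ← cGF x hx t ht, mul_assoc (F x), ← mul_assoc (cc Y),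
            hS.ZF x hx, Matrix.smul_mul]
        rw [map_add, cc_smul, add_mul, Matrix.smul_mul, hZZ, hYY, smul_smul, ← add_smul]
        push_cast
        rfl
      have e2 : cc (Z + (N : ℚ) • Y) * (G t * (F x * F' x')) = x' • (G t * (F x * F' x')) := by
        have hcG : ∀ t ∈ T, cc (Z + (N : ℚ) • Y) * G t = G t * cc (Z + (N : ℚ) • Y) := by
          refine hT.com _ ?_ ?_
          · rw [map_add, cc_smul, add_mul, mul_add, Matrix.smul_mul, Matrix.mul_smul, cYZ]
          · rw [← cc_mulSM, ← cc_mulSM, hZ'com J hD.JD]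
        rw [← mul_assoc, hcG t ht, mul_assoc, cFF' x hx x' hx', ← mul_assoc (cc _),
          hS'.ZF x' hx', Matrix.smul_mul, Matrix.mul_smul]
      rw [e1] at e2
      have e3 : ((t + N * x) - x') • (G t * (F x * F' x')) = 0 := by
        rw [sub_smul, e2, sub_self]
      rcases smul_eq_zero.1 e3 with h | h
      · exact (sub_eq_zero.1 h).symm
      · exact absurd h ht0
    have huniq : ∀ x ∈ S, ∀ y ∈ S, ∀ x' ∈ S', F x * F' x' ≠ 0 → F y * F' x' ≠ 0 → x = y := by
      intro x hx y hy x' hx' h1 h2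
      obtain ⟨t, ht, e1⟩ := hev x hx x' hx' h1
      obtain ⟨s, hs, e2⟩ := hev y hy x' hx' h2
      exact hN x hx y hy t ht s hs (by rw [← e1, ← e2])
    -- a section of the map from `S'` to `S`
    have hex : ∀ x ∈ S, ∃ x' ∈ S', F x * F' x' ≠ 0 := by
      intro x hx
      by_contra hcon
      push Not at hcon
      apply hS.ne x hx
      have h1 : F x * P₀ = F x := by
        have h2 : F x * P₀ = P₀ * F x := by
          rw [hP₀, Matrix.mul_smul, Matrix.smul_mul, mul_add, add_mul, mul_one, one_mul,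
            Matrix.mul_smul, Matrix.smul_mul, cFJ x hx]
        rw [h2, hP₀F x hx]
      rw [← h1, hP₀, ← hS'.sum, Finset.mul_sum]
      exact Finset.sum_eq_zero hcon
    choose! g hgS hg using hex
    have hinj : Set.InjOn g (S : Set ℂ) := by
      intro x hx y hy hxy
      exact huniq x hx y hy (g x) (hgS x hx) (hg x hx) (by rw [hxy]; exact hg y hy)
    have hsurj : S.image g = S' := by
      apply Finset.eq_of_subset_of_card_le
      · intro y hy
        obtain ⟨x, hx, rfl⟩ := Finset.mem_image.1 hy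
        exact hgS x hx
      · rw [Finset.card_image_of_injOn hinj, hc, hc']
    intro x hx
    -- `F x = F x * F' (g x)`
    have hFx : F x * F' (g x) = F x := by
      have h1 : F x * P₀ = F x := by
        have h2 : F x * P₀ = P₀ * F x := by
          rw [hP₀, Matrix.mul_smul, Matrix.smul_mul, mul_add, add_mul, mul_one, one_mul,
            Matrix.mul_smul, Matrix.smul_mul, cFJ x hx]
        rw [h2, hP₀F x hx]
      conv_rhs => rw [← h1, hP₀, ← hS'.sum, Finset.mul_sum]
      rw [Finset.sum_eq_single (g x)]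
      · intro y hy hne
        by_contra h0
        rw [← hsurj] at hy
        obtain ⟨u, hu, rfl⟩ := Finset.mem_image.1 hy
        apply hne
        rw [huniq x hx u hu (g u) (hgS u hu) h0 (hg u hu)]
      · intro h
        exact absurd (hgS x hx) h
    refine ⟨g x - N * x, ?_⟩
    rw [hZe, sub_mul, Matrix.smul_mul, hS.ZF x hx, smul_smul]
    conv_lhs =>
      lhs
      rw [← hFx, cFF' x hx (g x) (hgS x hx), ← mul_assoc, hS'.ZF (g x) (hgS x hx),
        Matrix.smul_mul, ← cFF' x hx (g x) (hgS x hx), hFx]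
    rw [← sub_smul]

/-- M8. -/
theorem thm_Cen (hSpc : St_Spc) (hEig : St_Eig) : St_Cen := by
  intro ι _ _ ψ 𝓓 J d p z Y S F hD hz hY hYn hS Z hZ hZY x hx
  obtain ⟨m, c, y, hc, hy⟩ := exists_rat_decomp (X := ι × ι) (fun t => Z t.1 t.2)
  let Zl : Fin m → Matrix ι ι ℚ := fun l => Matrix.of (fun i j => y l (i, j))
  have hZe : Z = ∑ l, c l • cc (Zl l) := by
    ext i j
    rw [Matrix.sum_apply]
    exact hy (i, j)
  -- the components satisfy the same rational linear equations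
  have key : ∀ M : Matrix ι ι ℚ, Z * cc M = cc M * Z → ∀ l, Zl l * M = M * Zl l := by
    intro M hM l
    have e1 : ∑ l, c l • (cc (Zl l) * cc M) = Z * cc M := by
      rw [hZe, Finset.sum_mul]
      exact Finset.sum_congr rfl fun l _ => (Matrix.smul_mul _ _ _).symm
    have e2 : ∑ l, c l • (cc M * cc (Zl l)) = cc M * Z := by
      rw [hZe, Finset.mul_sum]
      exact Finset.sum_congr rfl fun l _ => (Matrix.mul_smul _ _ _).symm
    have h1 : ∑ l, c l • cc (Zl l * M - M * Zl l) = 0 := by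
      simp only [map_sub, cc_mulSM, smul_sub, Finset.sum_sub_distrib]
      rw [e1, e2, hM, sub_self]
    rw [← sub_eq_zero]
    ext i j
    have h2 : ∑ l, (((Zl l * M - M * Zl l) i j : ℚ)) • c l = 0 := by
      have h3 := congrFun (congrFun h1 i) j
      rw [Matrix.sum_apply, Matrix.zero_apply] at h3
      refine Eq.trans ?_ h3
      refine Finset.sum_congr rfl fun l _ => ?_
      show _ = c l * (((Zl l * M - M * Zl l) i j : ℚ) : ℂ)
      rw [Algebra.smul_def, mul_comm]
      rfl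
    exact Fintype.linearIndependent_iff.1 hc _ h2 l
  have hl : ∀ l, ∃ a : ℂ, cc (Zl l) * F x = a • F x := fun l =>
    cen_rat hSpc hEig hD hz hY hYn hS (Zl l) (fun f hf => key f (hZ f hf) l) (key Y hZY l) x hx
  choose a ha using hl
  refine ⟨∑ l, c l * a l, ?_⟩
  rw [hZe, Finset.sum_mul, Finset.sum_smul]
  refine Finset.sum_congr rfl fun l _ => ?_
  rw [Matrix.smul_mul, ha l, smul_smul]

end

end PSQ
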