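import Pool.Agent.PSQ.St
import Pool.Agent.Helper84.AutC

/-!
# PSQ: multiplicities of the eigenvalues of the elements of the commutant (M7)
-/

set_option autoImplicit false

namespace PSQ

open Matrix Module Pool.Agent.Helper7

section

variable {ι : Type} [Fintype ι] [DecidableEq ι]

lemma eq_zero_of_det {A B : Matrix ι ι ℂ} (h : A.det ≠ 0) (hAB : A * B = 0) : B = 0 := by
  have h1 : A⁻¹ * A = 1 := Matrix.nonsing_inv_mul A (isUnit_iff_ne_zero.2 h)
  rw [← one_mul B, ← h1, mul_assoc, hAB, mul_zero]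

lemma det_cc (A : Matrix ι ι ℚ) : (cc A).det = (A.det : ℂ) := by
  have h := (algebraMap ℚ ℂ).map_det A
  exact h.symm

lemma cc_smul (q : ℚ) (A : Matrix ι ι ℚ) : cc (q • A) = (q : ℂ) • cc A := by
  ext i j
  simp [cc]

lemma cc_mulSM (A B : Matrix ι ι ℚ) : cc (A * B) = cc A * cc B := map_mul cc A B

lemma cc_one : cc (1 : Matrix ι ι ℚ) = 1 := map_one cc

/-- M3, first part. -/
lemma det_ne_zero_of_com {ψ : Matrix ι ι ℚ} {𝓓 : Set (Matrix ι ι ℚ)} {J : Matrix ι ι ℚ} {d : ℚ}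
    {p : ℕ} (hD : DA ψ 𝓓 J d p) (Z : Matrix ι ι ℚ) (hZ : ∀ f ∈ 𝓓, Z * f = f * Z) (h0 : Z ≠ 0) :
    Z.det ≠ 0 := by
  intro hdet
  obtain ⟨v, hv, hv2⟩ := Matrix.exists_mulVec_eq_zero_iff.2 hdet
  apply h0
  apply Matrix.ext_of_mulVec_single
  intro i
  obtain ⟨f, hf, hfv⟩ := hD.trans v (Pi.single i 1) hv
  rw [← hfv, Matrix.mulVec_mulVec, hZ f hf, ← Matrix.mulVec_mulVec, hv2, Matrix.mulVec_zero,
    Matrix.zero_mulVec]

lemma trJ {ψ : Matrix ι ι ℚ} {𝓓 : Set (Matrix ι ι ℚ)} {J : Matrix ι ι ℚ} {d : ℚ}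
    {p : ℕ} (hD : DA ψ 𝓓 J d p) : J.trace = 0 := by
  have h1 : ψ * ψ⁻¹ = 1 := Matrix.mul_nonsing_inv ψ (isUnit_iff_ne_zero.2 hD.nd)
  have h2 : ψ⁻¹ * ψ = 1 := Matrix.nonsing_inv_mul ψ (isUnit_iff_ne_zero.2 hD.nd)
  have h3 : Jᵀ = -(ψ * J * ψ⁻¹) := by
    calc Jᵀ = Jᵀ * (ψ * ψ⁻¹) := by rw [h1, mul_one]
      _ = -(ψ * J) * ψ⁻¹ := by rw [← mul_assoc, hD.Jpsi]
      _ = _ := by rw [neg_mul]
  have h4 : Jᵀ.trace = -J.trace := by
    rw [h3, Matrix.trace_neg, Matrix.trace_mul_comm, ← mul_assoc, h2, one_mul]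
  rw [Matrix.trace_transpose] at h4
  linarith

lemma trccJ {ψ : Matrix ι ι ℚ} {𝓓 : Set (Matrix ι ι ℚ)} {J : Matrix ι ι ℚ} {d : ℚ}
    {p : ℕ} (hD : DA ψ 𝓓 J d p) : (cc J).trace = 0 := by
  have h : (cc J).trace = ((J.trace : ℚ) : ℂ) := by
    simp [cc, Matrix.trace]
  rw [h, trJ hD, Rat.cast_zero]

lemma z_ne {d : ℚ} (hd : 0 < d) {z : ℂ} (hz : z ^ 2 = -(d : ℂ)) : z ≠ 0 := by
  rintro rfl
  have h : (d : ℂ) = 0 := by
    have h1 : (0 : ℂ) ^ 2 = 0 := by norm_num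
    rw [h1] at hz
    linear_combination hz
  exact hd.ne' (by exact_mod_cast h)

/-- The trace of an idempotent matrix. -/
lemma trace_idem (F : Matrix ι ι ℂ) (hF : F * F = F) :
    F.trace = (Module.finrank ℂ (LinearMap.range (Matrix.toLin' F)) : ℂ) := by
  have h1 : IsIdempotentElem (Matrix.toLin' F) := by
    show Matrix.toLin' F ∘ₗ Matrix.toLin' F = Matrix.toLin' F
    rw [← Matrix.toLin'_mul, hF]
  have h2 := (LinearMap.IsIdempotentElem.isProj_range _ h1).trace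
  rw [Matrix.trace_toLin'_eq] at h2
  exact h2

/-- An idempotent matrix of trace one has rank one. -/
lemma rank_one {F : Matrix ι ι ℂ} (hF : F * F = F) (ht : F.trace = 1) :
    ∃ v : ι → ℂ, F *ᵥ v = v ∧ ∀ u : ι → ℂ, ∃ c : ℂ, F *ᵥ u = c • v := by
  have h1 := trace_idem F hF
  rw [ht] at h1
  have h2 : Module.finrank ℂ (LinearMap.range (Matrix.toLin' F)) = 1 := by exact_mod_cast h1.symm
  obtain ⟨⟨v, hv⟩, hv0, hv1⟩ := finrank_eq_one_iff'.1 h2
  obtain ⟨w, hw⟩ := hv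
  rw [Matrix.toLin'_apply] at hw
  refine ⟨v, by rw [← hw, Matrix.mulVec_mulVec, hF], fun u => ?_⟩
  obtain ⟨c, hc⟩ := hv1 ⟨F *ᵥ u, ⟨u, Matrix.toLin'_apply F u⟩⟩
  exact ⟨c, (congrArg Subtype.val hc).symm⟩

/-- Matrices commuting with a rank one idempotent commute on its image. -/
lemma comm_rank_one {F : Matrix ι ι ℂ} (hF : F * F = F) (ht : F.trace = 1) (A B : Matrix ι ι ℂ)
    (hA : A * F = F * A) (hB : B * F = F * B) : A * B * F = B * A * F := by
  obtain ⟨v, hv, hu⟩ := rank_one hF ht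
  have key : ∀ A : Matrix ι ι ℂ, A * F = F * A → ∃ a : ℂ, A *ᵥ v = a • v := by
    intro A hA
    obtain ⟨a, ha⟩ := hu (A *ᵥ v)
    refine ⟨a, ?_⟩
    rw [← ha, Matrix.mulVec_mulVec, ← hA, ← Matrix.mulVec_mulVec, hv]
  obtain ⟨a, ha⟩ := key A hA
  obtain ⟨b, hb⟩ := key B hB
  apply Matrix.ext_of_mulVec_single
  intro i
  obtain ⟨c, hc⟩ := hu (Pi.single i 1)
  rw [← Matrix.mulVec_mulVec, ← Matrix.mulVec_mulVec, ← Matrix.mulVec_mulVec,
    ← Matrix.mulVec_mulVec, hc]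
  simp only [Matrix.mulVec_smul, ha, hb]
  rw [smul_comm b a]

/-- The eigenvalues of a rational matrix are algebraic. -/
lemma alg_of_eig (Z : Matrix ι ι ℚ) (x : ℂ) (F : Matrix ι ι ℂ) (hF : F ≠ 0)
    (h : cc Z * F = x • F) : IsAlgebraic ℚ x := by
  have h1 : (Matrix.scalar ι x - cc Z) * F = 0 := by
    rw [sub_mul, h, Matrix.scalar_apply, ← Matrix.smul_one_eq_diagonal, Matrix.smul_mul, one_mul,
      sub_self]
  have h2 : (Matrix.scalar ι x - cc Z).det = 0 := by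
    by_contra hne
    exact hF (eq_zero_of_det hne h1)
  have h3 : (cc Z).charpoly.eval x = 0 := by rw [Matrix.eval_charpoly, h2]
  have h4 : (cc Z).charpoly = Z.charpoly.map (algebraMap ℚ ℂ) := Matrix.charpoly_map Z _
  refine ⟨Z.charpoly, (Matrix.charpoly_monic Z).ne_zero, ?_⟩
  rw [Polynomial.aeval_def, ← Polynomial.eval_map, ← h4, h3]

/-- An algebraic number fixed by the automorphisms over `ℚ(z)` lies in `ℚ(z)`. -/
lemma in_qz {d : ℚ} (hd : 0 < d) {z : ℂ} (hz : z ^ 2 = -(d : ℂ)) (x : ℂ) (hx : IsAlgebraic ℚ x)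
    (h : ∀ σ : ℂ ≃+* ℂ, σ z = z → σ x = x) : ∃ a b : ℚ, x = a + b * z := by
  have hz0 := z_ne hd hz
  have hzalg : IsAlgebraic ℚ z := by
    refine ⟨Polynomial.X ^ 2 + Polynomial.C d, (Polynomial.monic_X_pow_add_C d two_ne_zero).ne_zero,
      ?_⟩
    simp [hz]
  let τ : ℂ ≃+* ℂ := starRingAut
  have hσz : ∀ σ : ℂ ≃+* ℂ, σ z = z ∨ σ z = -z := by
    intro σ
    have h1 : (σ z) ^ 2 = z ^ 2 := by rw [← map_pow, hz, map_neg, map_ratCast]
    exact sq_eq_sq_iff_eq_or_eq_neg.1 h1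
  have hτz : τ z = -z := by
    rcases hσz τ with h1 | h1
    · exfalso
      have h2 : (starRingEnd ℂ) z = z := h1
      obtain ⟨r, hr⟩ := Complex.conj_eq_iff_real.1 h2
      rw [hr] at hz
      have h3 : r ^ 2 = -(d : ℝ) := by exact_mod_cast hz
      have h4 : (0 : ℝ) < d := by exact_mod_cast hd
      nlinarith [sq_nonneg r]
    · exact h1
  have hττ : ∀ y, τ (τ y) = y := fun y => Complex.conj_conj y
  have hxτ : IsAlgebraic ℚ (τ x) := hx.algHom (τ : ℂ →+* ℂ).toRatAlgHom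
  have key : ∀ σ : ℂ ≃+* ℂ, (σ z = z → σ (τ x) = τ x) ∧ (σ z = -z → σ x = τ x ∧ σ (τ x) = x) := by
    intro σ
    refine ⟨fun h1 => ?_, fun h1 => ⟨?_, ?_⟩⟩
    · have h2 := h ((τ.trans σ).trans τ) (by
        show τ (σ (τ z)) = z
        rw [hτz, map_neg, h1, map_neg, hτz, neg_neg])
      have h3 : τ (σ (τ x)) = x := h2
      rw [← hττ (σ (τ x)), h3]
    · have h2 := h (σ.trans τ) (by
        show τ (σ z) = z
        rw [h1, map_neg, hτz, neg_neg])
      have h3 : τ (σ x) = x := h2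
      rw [← hττ (σ x), h3]
    · exact h (τ.trans σ) (by
        show σ (τ z) = z
        rw [hτz, map_neg, h1, neg_neg])
  obtain ⟨a, ha⟩ := Pool.Agent.Helper84.rational_of_fixed (x + τ x) (hx.add hxτ) (fun σ => by
    rcases hσz σ with h1 | h1
    · rw [map_add, h σ h1, (key σ).1 h1]
    · rw [map_add, ((key σ).2 h1).1, ((key σ).2 h1).2, add_comm])
  obtain ⟨b, hb⟩ := Pool.Agent.Helper84.rational_of_fixed ((x - τ x) * z⁻¹)
    ((hx.sub hxτ).mul hzalg.inv) (fun σ => by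
    rcases hσz σ with h1 | h1
    · rw [map_mul, map_inv₀, map_sub, h σ h1, (key σ).1 h1, h1]
    · rw [map_mul, map_inv₀, map_sub, ((key σ).2 h1).1, ((key σ).2 h1).2, h1, inv_neg]
      ring)
  refine ⟨a / 2, b / 2, ?_⟩
  push_cast
  rw [ha, hb]
  field_simp
  ring

/-- M7. -/
theorem thm_Eig (hTrn : St_Trn) : St_Eig := by
  intro ι _ _ ψ 𝓓 J d p z Z S F hD hz hZ hnot hS
  have hz0 := z_ne hD.dpos hz
  have hidem : ∀ x ∈ S, F x * F x = F x := by
    intro x hx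
    have h := hS.orth x hx x hx
    rwa [if_pos rfl] at h
  -- the sum of the traces
  have hsum : ∑ x ∈ S, (F x).trace = (p : ℂ) ^ 2 := by
    rw [← Matrix.trace_sum, hS.sum, Matrix.trace_smul, Matrix.trace_add, Matrix.trace_one,
      Matrix.trace_smul, trccJ hD, hD.card, smul_zero, add_zero, smul_eq_mul]
    push_cast
    ring
  have hne : S.Nonempty := by
    rw [Finset.nonempty_iff_ne_empty]
    rintro rfl
    rw [Finset.sum_empty] at hsum
    have h : (p : ℂ) ≠ 0 := Nat.cast_ne_zero.2 hD.prime.ne_zero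
    exact pow_ne_zero 2 h hsum.symm
  obtain ⟨x₀, hx₀⟩ := hne
  -- all traces are equal
  obtain ⟨w, hw⟩ : ∃ w : ℕ, (F x₀).trace = (w : ℂ) := ⟨_, trace_idem _ (hidem x₀ hx₀)⟩
  have hall : ∀ x ∈ S, (F x).trace = (w : ℂ) := by
    intro x hx
    obtain ⟨σ, hσz, hσx⟩ := hTrn ι ψ 𝓓 J d p z Z S F hD hz hZ hS x₀ hx₀ x hx
    have h1 := (hS.gal σ hσz x₀ hx₀).2
    rw [hσx] at h1
    have h2 : ((F x₀).map σ).trace = σ ((F x₀).trace) := by
      simp [Matrix.trace]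
    rw [← h1, h2, hw, map_natCast]
  have hcard : S.card * w = p ^ 2 := by
    rw [Finset.sum_congr rfl hall, Finset.sum_const, nsmul_eq_mul] at hsum
    exact_mod_cast hsum
  have hdvd : S.card ∣ p ^ 2 := ⟨w, hcard.symm⟩
  obtain ⟨k, hk2, hk⟩ := (Nat.dvd_prime_pow hD.prime).1 hdvd
  interval_cases k
  · -- one eigenvalue
    exfalso
    rw [pow_zero] at hk
    obtain ⟨x, hx⟩ := Finset.card_eq_one.1 hk
    have hxS : x ∈ S := by rw [hx]; exact Finset.mem_singleton_self x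
    obtain ⟨a, b, hab⟩ := in_qz hD.dpos hz x (alg_of_eig Z x (F x) (hS.ne x hxS) (hS.ZF x hxS))
      (fun σ hσ => by
        have h := (hS.gal σ hσ x hxS).1
        rw [hx] at h
        exact Finset.mem_singleton.1 h)
    apply hnot
    refine ⟨a, b, ?_⟩
    by_contra hne
    have hne' : Z - (a • (1 : Matrix ι ι ℚ) + b • J) ≠ 0 := sub_ne_zero.2 hne
    have hdet := det_ne_zero_of_com hD _ (fun f hf => by
      rw [sub_mul, mul_sub, hZ f hf, add_mul, mul_add, Matrix.smul_mul, Matrix.smul_mul,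
        Matrix.mul_smul, Matrix.mul_smul, one_mul, mul_one, hD.Jc f hf]) hne'
    apply hS.ne x hxS
    apply eq_zero_of_det (A := cc (Z - (a • (1 : Matrix ι ι ℚ) + b • J)))
    · rw [det_cc]
      exact_mod_cast hdet
    · rw [map_sub, map_add, cc_smul, cc_smul, cc_one, sub_mul, add_mul, Matrix.smul_mul,
        Matrix.smul_mul, one_mul, hS.ZF x hxS, hS.JF x hxS, hab, smul_smul, ← add_smul, sub_self]
  · rw [pow_one] at hk
    refine ⟨hk, fun x hx => ?_⟩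
    rw [hall x hx]
    rw [hk, pow_two] at hcard
    rw [Nat.eq_of_mul_eq_mul_left hD.prime.pos hcard]
  · -- `p ^ 2` eigenvalues
    exfalso
    have hw1 : w = 1 := by
      rw [hk] at hcard
      have hpos : 0 < p ^ 2 := pow_pos hD.prime.pos 2
      exact Nat.eq_of_mul_eq_mul_left hpos (by rw [hcard, mul_one])
    obtain ⟨f, hf, g, hg, hfg⟩ := hD.nc
    have hcomF : ∀ f ∈ 𝓓, cc f * F x₀ = F x₀ * cc f := fun f hf =>
      hS.com (cc f) (by rw [← cc_mulSM, ← cc_mulSM, hZ f hf]) (by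
        rw [← cc_mulSM, ← cc_mulSM, hD.Jc f hf]) x₀ hx₀
    have h1 := comm_rank_one (hidem x₀ hx₀) (by rw [hw, hw1, Nat.cast_one]) (cc f) (cc g)
      (hcomF f hf) (hcomF g hg)
    have hmem : f * g - g * f ∈ 𝓓 := hD.sub _ (hD.mul f hf g hg) _ (hD.mul g hg f hf)
    have hdet := hD.div _ hmem (sub_ne_zero.2 hfg)
    apply hS.ne x₀ hx₀
    apply eq_zero_of_det (A := cc (f * g - g * f))
    · rw [det_cc]
      exact_mod_cast hdet
    · rw [map_sub, cc_mulSM, cc_mulSM, sub_mul, h1, sub_self]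

end

end PSQ
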