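import Pool.Agent.PSQ.Alg
import Pool.Agent.PSQ.AbsMain
import Pool.Agent.PSQ.Eig
import Pool.Agent.PSQ.Cen
import Pool.Agent.PSQ.M.Inv
import Pool.Agent.PSQ.M.Rep
import Pool.Agent.PSQ.M.Trc
import Pool.Agent.PSQ.M.Spc
import Pool.Agent.PSQ.M.Trn
import Pool.Agent.PSQ.M.Cyc
import Pool.Agent.PSQ.M.Exi
import Pool.Agent.PSQ.M.Spl
import Pool.Agent.PSQ.M.Shf
import Pool.Agent.PSQ.M.Hq
import Pool.Agent.PSQ.M.Dia
import Pool.Agent.PSQ.M.Hom
import Pool.Agent.PSQ.M.Off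
import Pool.Agent.PSQ.M.Frm
import Pool.Agent.PSQ.M.Gl
import Pool.Agent.PSQ.M.Fft
import Pool.Agent.PSQ.M.Fam

/-!
# PSQ: the algebra part, final assembly
-/

set_option autoImplicit false

namespace PSQ

theorem all_Eig : St_Eig := thm_Eig (thm_Trn thm_Trc)

theorem all_Spl : St_Spl :=
  thm_Spl (thm_Spc thm_Trc) (thm_Trn thm_Trc) thm_Cyc all_Eig
    (thm_Cen (thm_Spc thm_Trc) all_Eig) thm_Exi

theorem all_Frm : St_Frm :=
  thm_Frm (thm_Hq thm_Shf) (thm_Hom thm_Trc) (thm_Off (thm_Dia (thm_Hq thm_Shf)) (thm_Hom thm_Trc))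

theorem all_Alg : St_Alg := thm_Alg all_Spl all_Frm thm_Gl

/-- The algebra part of the campaign. -/
theorem all_Main : St_Main := thm_Main thm_Inv thm_Rep (thm_Fam thm_Fft) all_Alg

end PSQ
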