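import Pool.Agent.PSQ.Albert
import Pool.Agent.PSQ.Bridge

set_option autoImplicit false

/-!
# PSQ / Main

The final assembly: powers of simple abelian varieties of dimension `p^2` with non-commutative
endomorphism algebra.
-/

namespace Pool.Agent.PSQ

open Pool.Agent.GPC

theorem main_of (hDet : GPC.St_Det) (hAlg : GPC.St_Alg) (A : AbVar) (hs : A.IsSimple) (p : ℕ)
    (hp : p.Prime) (hp2 : p ≠ 2) (hg : A.g = p ^ 2)
    (hnc : ∃ f h, A.IsEnd f ∧ A.IsEnd h ∧ ∃ v, f (h v) ≠ h (f v)) (m k : ℕ)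
    (α : Form (fun _ : Unit => A) (fun _ => m) (2 * k)) :
    IsGrothendieck (fun _ : Unit => A) (fun _ => m) k α ↔
      IsDivisorial (fun _ : Unit => A) (fun _ => m) k α := by
  refine ⟨fun hα => ?_, Pool.Agent.Helper7.isGrothendieck_of_isDivisorial _ _ k α⟩
  obtain ⟨d, J, hJ⟩ := thm_Albert A p hs hp hp2 hg hnc
  exact hAlg A p d J hJ (hDet A p d J hJ) m k α hα

/-- the theorem, from the torus part and the algebra part -/
theorem main_final (hDet : GPC.St_Det) (hMain : _root_.PSQ.St_Main) (A : AbVar) (hs : A.IsSimple)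
    (p : ℕ) (hp : p.Prime) (hp2 : p ≠ 2) (hg : A.g = p ^ 2)
    (hnc : ∃ f h, A.IsEnd f ∧ A.IsEnd h ∧ ∃ v, f (h v) ≠ h (f v)) (m k : ℕ)
    (α : Form (fun _ : Unit => A) (fun _ => m) (2 * k)) :
    IsGrothendieck (fun _ : Unit => A) (fun _ => m) k α ↔
      IsDivisorial (fun _ : Unit => A) (fun _ => m) k α :=
  main_of hDet (alg_of hMain) A hs p hp hp2 hg hnc m k α

end Pool.Agent.PSQ
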