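import Pool.Agent.PSQ.Square
import Pool.Agent.Helper71.AF.Fld

set_option autoImplicit false

/-!
# PSQ / Alb

Non-commutative division algebras with an involution, of dimension dividing `2 p^2`.
-/

namespace Pool.Agent.PSQ

open Module Polynomial Pool.Agent.Helper71.AF

section minpoly

variable {K D : Type*} [Field K] [DivisionRing D] [Algebra K D] [Module.Finite K D]

/-- the degree of an element divides the dimension -/
theorem natDegree_dvd (y : D) : (minpoly K y).natDegree ∣ finrank K D := by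
  have hint : IsIntegral K y := IsIntegral.of_finite K y
  have hirr : Irreducible (minpoly K y) := minpoly.irreducible hint
  have : Fact (Irreducible (minpoly K y)) := ⟨hirr⟩
  obtain ⟨φ, hφ⟩ : ∃ φ : AdjoinRoot (minpoly K y) →+* D, ∀ f : K[X],
      φ (AdjoinRoot.mk (minpoly K y) f) = aeval y f := by
    refine ⟨Ideal.Quotient.lift (Ideal.span {minpoly K y}) (aeval y : K[X] →ₐ[K] D).toRingHom ?_,
      fun f => rfl⟩
    intro f hf
    obtain ⟨g, rfl⟩ := Ideal.mem_span_singleton'.1 hf
    show aeval y (g * minpoly K y) = 0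
    rw [map_mul, minpoly.aeval, mul_zero]
  let _ : Module (AdjoinRoot (minpoly K y)) D := Module.compHom D φ
  have hsm : ∀ (a : AdjoinRoot (minpoly K y)) (x : D), a • x = φ a * x := fun _ _ => rfl
  have : IsScalarTower K (AdjoinRoot (minpoly K y)) D := by
    refine ⟨fun k a x => ?_⟩
    obtain ⟨f, rfl⟩ := AdjoinRoot.mk_surjective a
    rw [hsm, hsm, AdjoinRoot.smul_mk, hφ, hφ, map_smul, smul_mul_assoc]
  have h1 := Module.finrank_mul_finrank K (AdjoinRoot (minpoly K y)) D
  have h2 : finrank K (AdjoinRoot (minpoly K y)) = (minpoly K y).natDegree := by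
    rw [(AdjoinRoot.powerBasis hirr.ne_zero).finrank, AdjoinRoot.powerBasis_dim]
  rw [← h2, ← h1]
  exact dvd_mul_right _ _

/-- a skew element of odd degree is zero -/
theorem skew_zero [CharZero K] {s : D → D} (hs : AInv s)
    (hK : ∀ k : K, s (algebraMap K D k) = algebraMap K D k) (hodd : Odd (finrank K D)) (y : D)
    (hy : s y = -y) : y = 0 := by
  have hint : IsIntegral K y := IsIntegral.of_finite K y
  have hirr : Irreducible (minpoly K y) := minpoly.irreducible hint
  have hn : Odd (minpoly K y).natDegree := hodd.of_dvd_nat (natDegree_dvd y)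
  have hpow : ∀ n : ℕ, s (y ^ n) = (-y) ^ n := by
    intro n
    induction n with
    | zero => rw [pow_zero, pow_zero, hs.one]
    | succ n ih => rw [pow_succ, hs.mul, ih, hy, pow_succ']
  -- `s (f(y)) = f(-y)`
  have hsf : ∀ f : K[X], s (aeval y f) = aeval (-y) f := by
    intro f
    induction f using Polynomial.induction_on' with
    | add f g hf hg => rw [map_add, hs.add, hf, hg, map_add]
    | monomial n a =>
      rw [aeval_monomial, aeval_monomial, hs.mul, hpow, hK]
      exact (Algebra.commutes a _).symm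
  have h0 : aeval (-y) (minpoly K y) = 0 := by
    rw [← hsf, minpoly.aeval, hs.zero]
  obtain ⟨P, hP⟩ : ∃ P : K[X], P = minpoly K y := ⟨_, rfl⟩
  have h1 : aeval y (P.comp (-X)) = 0 := by
    rw [aeval_comp, map_neg, aeval_X, hP]
    exact h0
  have hdvd : P ∣ P.comp (-X) := by
    rw [hP] at h1 ⊢
    exact minpoly.dvd K y h1
  have hmon : P.Monic := by rw [hP]; exact minpoly.monic hint
  have hn' : Odd P.natDegree := by rw [hP]; exact hn
  -- `P(-X) = -P(X)`
  have h2 : P.comp (-X) = -P := by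
    obtain ⟨Q, hQ⟩ := hdvd
    have hne : P.comp (-X) ≠ 0 := by
      intro h
      have h3 : (P.comp (-X)).natDegree = P.natDegree := by
        rw [natDegree_comp, natDegree_neg, natDegree_X, mul_one]
      rw [h, natDegree_zero] at h3
      rw [← h3] at hn'
      exact (Nat.not_odd_zero) hn'
    have hQ0 : Q ≠ 0 := by
      rintro rfl
      rw [mul_zero] at hQ
      exact hne hQ
    have hdeg : (P.comp (-X)).natDegree = P.natDegree + Q.natDegree := by
      rw [hQ, natDegree_mul hmon.ne_zero hQ0]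
    rw [natDegree_comp, natDegree_neg, natDegree_X, mul_one] at hdeg
    have hQd : Q.natDegree = 0 := by omega
    obtain ⟨c, rfl⟩ := natDegree_eq_zero.1 hQd
    have hlc : (P.comp (-X)).leadingCoeff = (-1) ^ P.natDegree := by
      rw [leadingCoeff_comp (by rw [natDegree_neg, natDegree_X]; exact one_ne_zero),
        hmon.leadingCoeff, one_mul, leadingCoeff_neg, leadingCoeff_X]
    rw [hQ, leadingCoeff_mul, hmon.leadingCoeff, one_mul, leadingCoeff_C, hn'.neg_one_pow] at hlc
    rw [hQ, hlc, C_neg, C_1, mul_neg, mul_one]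
  have h3 : P.eval 0 = 0 := by
    have h4 := congrArg (Polynomial.eval 0) h2
    rw [eval_comp, eval_neg, eval_X, neg_zero, eval_neg] at h4
    linear_combination h4 / 2
  have h5 : X ∣ P := by
    have h4 := (dvd_iff_isRoot (p := P) (a := 0)).2 h3
    rwa [C_0, sub_zero] at h4
  have h6 : P = X := by
    have h7 : Associated X P := (irreducible_X).associated_of_dvd (by rw [hP]; exact hirr) h5
    exact (eq_of_monic_of_associated monic_X hmon h7).symm
  have h8 := minpoly.aeval K y
  rw [← hP, h6, aeval_X] at h8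
  exact h8

end minpoly

/-- the centre is a number field -/
theorem exists_center {D : Type} [DivisionRing D] [CharZero D] [Module.Finite ℚ D] :
    ∃ (K : Type) (_ : Field K) (_ : NumberField K) (e : K →+* D),
      ∀ z, (∀ x, x * z = z * x) ↔ ∃ k, e k = z := by
  obtain ⟨L, hL⟩ : ∃ L : Subfield D, ∀ z, z ∈ L ↔ ∀ x, x * z = z * x := by
    refine ⟨{ Subring.center D with inv_mem' := fun x hx => Subring.mem_center_iff.2 fun g => (Commute.inv_right₀ (a := g) (Subring.mem_center_iff.1 hx g)) }, fun z => ?_⟩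
    exact Subring.mem_center_iff
  obtain ⟨K, h1, h2, e, he⟩ := field_of_subfield L (fun x _ y hy => (hL y).1 hy x)
  exact ⟨K, h1, h2, e, fun z => (hL z).symm.trans (he z)⟩

theorem AInv_rat {D : Type} [DivisionRing D] [CharZero D] {s : D → D} (hs : AInv s) (q : ℚ) :
    s (q : D) = q := by
  have hn : ∀ n : ℕ, s (n : D) = n := by
    intro n
    induction n with
    | zero => rw [Nat.cast_zero, hs.zero]
    | succ n ih => rw [Nat.cast_succ, hs.add, ih, hs.one]
  have hz : ∀ n : ℤ, s (n : D) = n := by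
    intro n
    obtain ⟨m, rfl | rfl⟩ := n.eq_nat_or_neg
    · rw [Int.cast_natCast, hn]
    · rw [Int.cast_neg, Int.cast_natCast, hs.neg, hn]
  rw [Rat.cast_def, div_eq_mul_inv, hs.mul, hs.map_inv, hn, hz]
  exact (Nat.cast_commute q.den (q.num : D)).inv_left₀.eq

theorem dvd_aux {p m : ℕ} (hp : p.Prime) (hp2 : p ≠ 2) (h : m ^ 2 ∣ 2 * p ^ 2) (hm : m ≠ 1) :
    m = p := by
  have h2 : ¬ 2 ∣ m := by
    rintro ⟨k, rfl⟩
    have h3 : 2 * (2 * k ^ 2) ∣ 2 * p ^ 2 := by
      have : 2 * (2 * k ^ 2) = (2 * k) ^ 2 := by ring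
      rw [this]
      exact h
    have h4 : 2 * k ^ 2 ∣ p ^ 2 := (Nat.mul_dvd_mul_iff_left (by norm_num)).1 h3
    have h5 : 2 ∣ p := Nat.prime_two.dvd_of_dvd_pow ((dvd_mul_right 2 _).trans h4)
    exact hp2 ((Nat.prime_dvd_prime_iff_eq Nat.prime_two hp).1 h5).symm
  have hc : (m ^ 2).Coprime 2 :=
    Nat.Coprime.pow_left 2 (Nat.Coprime.symm ((Nat.Prime.coprime_iff_not_dvd Nat.prime_two).2 h2))
  have h3 : m ^ 2 ∣ p ^ 2 := hc.dvd_of_dvd_mul_left h
  have h4 : m ∣ p := (Nat.pow_dvd_pow_iff (by norm_num)).1 h3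
  exact ((Nat.dvd_prime hp).1 h4).resolve_left hm

/-- the structure of a non-commutative division algebra with an involution, of dimension dividing
`2 p^2` -/
theorem albert {D : Type} [DivisionRing D] [CharZero D] [Module.Finite ℚ D] {s : D → D}
    (hs : AInv s) {p : ℕ} (hp : p.Prime) (hp2 : p ≠ 2) (hdvd : finrank ℚ D ∣ 2 * p ^ 2)
    (hnc : ∃ x y : D, x * y ≠ y * x) :
    finrank ℚ D = 2 * p ^ 2 ∧ ∃ z : D, z ≠ 0 ∧ (∀ x, x * z = z * x) ∧ s z = -z ∧
      (∃ q : ℚ, z * z = q) ∧ ∀ w, (∀ x, x * w = w * x) → ∃ a b : ℚ, w = a + b * z := by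
  obtain ⟨K, iF, iN, e, he⟩ := exists_center (D := D)
  have hcen : ∀ (k : K) (x : D), x * e k = e k * x := fun k => (he _).2 ⟨k, rfl⟩
  let _ : Algebra K D := e.toAlgebra' fun k x => (hcen k x).symm
  have hsm : ∀ (k : K) (x : D), k • x = e k * x := fun _ _ => rfl
  have hal : ∀ k : K, algebraMap K D k = e k := fun _ => rfl
  have hrat : ∀ q : ℚ, e (q : K) = (q : D) := fun q => map_ratCast e q
  have hst : IsScalarTower ℚ K D := by
    refine ⟨fun q k x => ?_⟩
    rw [hsm, hsm, Rat.smul_def, map_mul, hrat, Rat.smul_def, mul_assoc]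
  have hfin : Module.Finite K D := Module.Finite.of_restrictScalars_finite ℚ K D
  obtain ⟨m, hm⟩ := finrank_sq (K := K) (D := D) (fun d hd => by
    obtain ⟨k, hk⟩ := (he d).1 hd
    exact ⟨k, by rw [hal, hk]⟩)
  have hmul := Module.finrank_mul_finrank ℚ K D
  rw [hm] at hmul
  -- `m = p`
  have hm1 : m ≠ 1 := by
    rintro rfl
    rw [one_pow] at hm
    have h1 := (finrank_eq_one_iff_of_nonzero' (1 : D) one_ne_zero).1 hm
    obtain ⟨x, y, hxy⟩ := hnc
    obtain ⟨k, hk⟩ := h1 y
    rw [hsm, mul_one] at hk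
    exact hxy (by rw [← hk]; exact hcen k x)
  have hmp : m = p := dvd_aux hp hp2 ((Dvd.intro_left _ hmul).trans hdvd) hm1
  subst hmp
  have he2 : finrank ℚ K ∣ 2 := by
    rw [← hmul] at hdvd
    exact (Nat.mul_dvd_mul_iff_right (pow_pos hp.pos 2)).1 hdvd
  have hodd : Odd (finrank K D) := by
    rw [hm]
    exact (hp.odd_of_ne_two hp2).pow
  -- the involution is not trivial on the centre
  obtain ⟨k, hk⟩ : ∃ k, s (e k) ≠ e k := by
    by_contra hcon
    push Not at hcon
    have hsk := skew_zero hs (K := K) (fun k => by rw [hal]; exact hcon k) hodd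
    have hid : ∀ x, s x = x := by
      intro x
      have h1 := hsk (x - s x) (by rw [hs.sub, hs.inv, neg_sub])
      exact (sub_eq_zero.1 h1).symm
    obtain ⟨x, y, hxy⟩ := hnc
    apply hxy
    rw [← hid (x * y), hs.mul, hid, hid]
  have hsc : ∀ x, x * s (e k) = s (e k) * x := by
    intro x
    rw [← hs.inv x, ← hs.mul, ← hcen, hs.mul]
  obtain ⟨z, hz⟩ : ∃ z, z = e k - s (e k) := ⟨_, rfl⟩
  have hz0 : z ≠ 0 := by
    rw [hz]
    exact sub_ne_zero.2 (Ne.symm hk)
  have hzc : ∀ x, x * z = z * x := by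
    intro x
    rw [hz, mul_sub, sub_mul, hcen, hsc]
  have hsz : s z = -z := by rw [hz, hs.sub, hs.inv, neg_sub]
  obtain ⟨kz, hkz⟩ := (he z).1 hzc
  have hnr : ∀ q : ℚ, z ≠ q := by
    intro q hq
    have h1 := AInv_rat hs q
    rw [← hq, hsz] at h1
    exact hz0 (self_eq_neg.1 h1.symm)
  have hei : Function.Injective e := e.injective
  have hk2 : finrank ℚ K = 2 := by
    rcases (Nat.dvd_prime Nat.prime_two).1 he2 with h1 | h1
    · exfalso
      obtain ⟨q, hq⟩ := (finrank_eq_one_iff_of_nonzero' (1 : K) one_ne_zero).1 h1 kz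
      apply hnr q
      rw [← hkz, ← hq, Rat.smul_def, mul_one, hrat]
    · exact h1
  have hli : LinearIndependent ℚ ![(1 : K), kz] := by
    rw [LinearIndependent.pair_iff]
    intro a b hab
    have hb : b = 0 := by
      by_contra hb
      apply hnr (-a / b)
      rw [← hkz, ← hrat]
      congr 1
      have h1 : (b : K) * kz = -a := by
        rw [Rat.smul_def, Rat.smul_def, mul_one] at hab
        linear_combination hab
      push_cast
      have hb' : (b : K) ≠ 0 := by exact_mod_cast hb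
      rw [eq_div_iff hb', mul_comm]
      exact h1
    refine ⟨?_, hb⟩
    rw [hb, zero_smul, add_zero, Rat.smul_def, mul_one] at hab
    exact_mod_cast hab
  have hspan : ∀ w, (∀ x, x * w = w * x) → ∃ a b : ℚ, w = a + b * z := by
    intro w hw
    obtain ⟨kw, hkw⟩ := (he w).1 hw
    have h1 := hli.span_eq_top_of_card_eq_finrank (by rw [hk2, Fintype.card_fin])
    have h2 : kw ∈ Submodule.span ℚ (Set.range ![(1 : K), kz]) := by rw [h1]; trivial
    rw [Matrix.range_cons, Matrix.range_cons, Matrix.range_empty, Set.union_empty,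
      Set.singleton_union, Submodule.mem_span_pair] at h2
    obtain ⟨a, b, hab⟩ := h2
    refine ⟨a, b, ?_⟩
    rw [← hkw, ← hab, map_add, Rat.smul_def, Rat.smul_def, map_mul, map_mul, hrat, hrat, map_one,
      mul_one, hkz]
  refine ⟨by rw [← hmul, hk2], z, hz0, hzc, hsz, ?_, hspan⟩
  obtain ⟨a, b, hab⟩ := hspan (z * z) (fun x => by
    rw [← mul_assoc, hzc, mul_assoc, hzc, ← mul_assoc])
  have h1 : s (z * z) = z * z := by rw [hs.mul, hsz, neg_mul_neg]
  rw [hab, hs.add, hs.mul, AInv_rat hs, AInv_rat hs, hsz] at h1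
  have h2 : (b : D) * z = -(b * z) := by
    have h3 := add_left_cancel h1
    rw [neg_mul, ← hzc] at h3
    exact h3.symm
  have h4 : (b : D) * z = 0 := self_eq_neg.1 h2
  exact ⟨a, by rw [hab, h4, add_zero]⟩

end Pool.Agent.PSQ
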