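import Pool.Agent.Helper7.AF.Defs
import Pool.Agent.Helper7.Bridge3

/-!
# PSQ / Types

Simple abelian varieties of dimension `p^2`, `p` an odd prime, with non-commutative endomorphism
algebra: the structure of the endomorphism algebra.
-/

namespace Pool.Agent.GPC

open Module Pool.Agent.Helper7

/-- `D = End(A) ⊗ ℚ` is a division algebra, `J`, `J^2 = -d < 0`, generates its centre and is
Rosati-skew, `H_1(A, ℚ)` is one-dimensional over `D`, `dim A = p^2`, `p` an odd prime. -/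
structure AbVar.IsPSq (A : AbVar) (p : ℕ) (d : ℚ) (J : Module.End ℂ A.H1) : Prop where
  prime : p.Prime
  two : p ≠ 2
  dim : A.g = p ^ 2
  pos : 0 < d
  endo : A.IsEnd J
  sq : ∀ v, J (J v) = (-(d : ℂ)) • v
  comm : ∀ f, A.IsEnd f → ∀ v, f (J v) = J (f v)
  adj : ∀ u v, A.pol (J u) v = - A.pol u (J v)
  center : ∀ f, A.IsEnd f → (∀ h, A.IsEnd h → ∀ v, f (h v) = h (f v)) →
    ∃ a b : ℚ, ∀ v, f v = (a : ℂ) • v + (b : ℂ) • J v
  inj : ∀ f, A.IsEnd f → (∃ v, f v ≠ 0) → Function.Injective f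
  trans : ∀ u v, A.IsBetti u → u ≠ 0 → A.IsBetti v → ∃ f, A.IsEnd f ∧ f u = v
  nc : ∃ f h, A.IsEnd f ∧ A.IsEnd h ∧ ∃ v, f (h v) ≠ h (f v)

/-- Albert's classification in this case -/
def St_Albert : Prop := ∀ (A : AbVar) (p : ℕ), A.IsSimple → p.Prime → p ≠ 2 → A.g = p ^ 2 →
  (∃ f h, A.IsEnd f ∧ A.IsEnd h ∧ ∃ v, f (h v) ≠ h (f v)) →
  ∃ (d : ℚ) (J : Module.End ℂ A.H1), A.IsPSq p d J

/-- the period of the determinant: the traces of a comparison operator on the two eigenspaces of `J`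
are different -/
def St_Det : Prop := ∀ (A : AbVar) (p : ℕ) (d : ℚ) (J : Module.End ℂ A.H1), A.IsPSq p d J →
  ∃ δ : Derivation ℚ ℂ ℂ, LinearMap.trace ℂ A.H1 ((pData A).N δ * J) ≠ 0

/-- the algebra -/
def St_Alg : Prop := ∀ (A : AbVar) (p : ℕ) (d : ℚ) (J : Module.End ℂ A.H1), A.IsPSq p d J →
  (∃ δ : Derivation ℚ ℂ ℂ, LinearMap.trace ℂ A.H1 ((pData A).N δ * J) ≠ 0) →
  ∀ (m k : ℕ) (α : Form (fun _ : Unit => A) (fun _ => m) (2 * k)),
    IsGrothendieck (fun _ : Unit => A) (fun _ => m) k α →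
    IsDivisorial (fun _ : Unit => A) (fun _ => m) k α

end Pool.Agent.GPC
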