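import Pool.Agent.PSQ.Alb
import Pool.Agent.PSQ.Types
import Pool.Agent.Helper71.AF.Cases

set_option autoImplicit false

/-!
# PSQ / Albert

The endomorphism algebra of a simple abelian variety of dimension `p^2` with non-commutative
endomorphism algebra.
-/

open scoped ComplexConjugate

namespace Pool.Agent.PSQ

open Module Pool.Agent.Helper71.AF Pool.Agent.GPC Pool.Agent.Helper7

theorem act_dvd {D V : Type} [DivisionRing D] [CharZero D] [Module.Finite ℚ D] [AddCommGroup V]
    [Module ℚ V] [Module.Finite ℚ V] (φ : D →+* Module.End ℚ V) : finrank ℚ D ∣ finrank ℚ V := by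
  let _ : Module D V := Module.compHom V φ
  have hsm : ∀ (a : D) (x : V), a • x = φ a x := fun _ _ => rfl
  have hr : ∀ q : ℚ, φ (q : D) = (q : ℚ) • (1 : Module.End ℚ V) := by
    intro q
    rw [← map_one φ, ← map_rat_smul φ q (1 : D), Rat.smul_def, mul_one]
  have : IsScalarTower ℚ D V := by
    refine ⟨fun q a x => ?_⟩
    rw [hsm, hsm, Rat.smul_def, map_mul, hr]
    rfl
  exact ⟨_, (Module.finrank_mul_finrank ℚ D V).symm⟩

theorem act_trans {D V : Type} [DivisionRing D] [CharZero D] [Module.Finite ℚ D] [AddCommGroup V]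
    [Module ℚ V] [Module.Finite ℚ V] (φ : D →+* Module.End ℚ V) (h : finrank ℚ D = finrank ℚ V)
    (u v : V) (hu : u ≠ 0) : ∃ f, φ f u = v := by
  have hr : ∀ (q : ℚ) (f : D), φ (q • f) = q • φ f := fun q f => map_rat_smul φ q f
  let T : D →ₗ[ℚ] V :=
    { toFun := fun f => φ f u
      map_add' := fun f g => by rw [map_add]; rfl
      map_smul' := fun q f => by rw [hr]; rfl }
  have hinj : Function.Injective T := by
    rw [← LinearMap.ker_eq_bot, LinearMap.ker_eq_bot']
    intro f hf
    by_contra hf0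
    apply hu
    have h1 : φ f u = 0 := hf
    have h2 : φ (f⁻¹ * f) u = 0 := by
      rw [map_mul]
      show φ f⁻¹ (φ f u) = 0
      rw [h1, map_zero]
    rw [inv_mul_cancel₀ hf0, map_one] at h2
    exact h2
  exact (LinearMap.injective_iff_surjective_of_finrank_eq_finrank h).1 hinj v

/-- version for finite-dimensional domains -/
theorem albert' {D : Type} [Ring D] [IsDomain D] [Algebra ℚ D] [hfin : Module.Finite ℚ D]
    (s : D → D) (h : AInv s) {V : Type} [AddCommGroup V] [Module ℚ V] [Module.Finite ℚ V]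
    (φ : D →+* Module.End ℚ V) {p : ℕ} (hp : p.Prime) (hp2 : p ≠ 2)
    (hV : finrank ℚ V = 2 * p ^ 2) (hnc : ∃ x y : D, x * y ≠ y * x) :
    (∀ u v : V, u ≠ 0 → ∃ f, φ f u = v) ∧ ∃ z : D, z ≠ 0 ∧ (∀ x, x * z = z * x) ∧ s z = -z ∧
      (∃ q : ℚ, z * z = algebraMap ℚ D q) ∧
      ∀ w, (∀ x, x * w = w * x) → ∃ a b : ℚ, w = algebraMap ℚ D a + algebraMap ℚ D b * z := by
  let _ : DivisionRing D := divisionRingOfFiniteDimensional ℚ D
  have h0 : CharZero D := charZero_of_injective_algebraMap (algebraMap ℚ D).injective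
  have h1 : @Module.Finite ℚ D _ _ (DivisionRing.toRatAlgebra : Algebra ℚ D).toModule := by
    have h2 : (DivisionRing.toRatAlgebra : Algebra ℚ D).toModule = Algebra.toModule :=
      Subsingleton.elim _ _
    rw [h2]
    exact hfin
  have halg : ∀ q : ℚ, algebraMap ℚ D q = (q : D) := fun q => eq_ratCast (algebraMap ℚ D) q
  have hd := @act_dvd D V _ _ h1 _ _ _ φ
  rw [hV] at hd
  obtain ⟨hf, z, hz0, hzc, hsz, ⟨q, hq⟩, hcen⟩ := @albert D _ _ h1 s h p hp hp2 hd hnc
  refine ⟨fun u v hu => @act_trans D V _ _ h1 _ _ _ φ (by rw [hf, hV]) u v hu, z, hz0, hzc, hsz,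
    ⟨q, by rw [hq, halg]⟩, fun w hw => ?_⟩
  obtain ⟨a, b, hab⟩ := hcen w hw
  exact ⟨a, b, by rw [halg, halg, hab]⟩

theorem finrank_Q (A : AbVar) : finrank ℚ (pData A).Q = 2 * A.g := by
  have h1 : LinearIndependent ℚ (pData A).bB := by
    refine (pData A).bB.linearIndependent.restrict_scalars (R := ℚ) ?_
    intro a b hab
    have h2 : (a : ℂ) = b := by simpa [Rat.smul_def] using hab
    exact_mod_cast h2
  have h2 : finrank ℚ (pData A).Q = Fintype.card (pData A).ι := finrank_span_eq_card h1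
  rw [h2, ← Module.finrank_eq_card_basis (pData A).bB, Module.finrank_fintype_fun_eq_card,
    card_index]

theorem thm_Albert : St_Albert := by
  intro A p hs hp hp2 hg hnc
  have hg0 : 0 < A.g := by rw [hg]; exact pow_pos hp.pos 2
  have hdom := isDomain_DD A hg0 hs
  have hfin := finite_DD (pData A)
  obtain ⟨s, hinv, hadj⟩ := exists_star A
  have hQfin : Module.Finite ℚ (pData A).Q :=
    Module.Finite.span_of_finite ℚ (Set.finite_range (pData A).bB)
  -- the action
  obtain ⟨φ, hφ⟩ : ∃ φ : DD (pData A) →+* Module.End ℚ (pData A).Q,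
      ∀ (f : DD (pData A)) (v : (pData A).Q), (φ f v : A.H1) = (f : Module.End ℂ A.H1) v := by
    refine ⟨{
      toFun := fun f => ((f : Module.End ℂ A.H1).restrictScalars ℚ).restrict
        (fun v hv => ((mem_DD (pData A) f).mp f.2).rat v hv)
      map_one' := by ext v; rfl
      map_mul' := fun f g => by ext v; rfl
      map_zero' := by ext v; rfl
      map_add' := fun f g => by ext v; rfl }, fun f v => rfl⟩
  have hendD : ∀ f : DD (pData A), A.IsEnd (f : Module.End ℂ A.H1) :=
    fun f => isEnd_of_isDRB A _ f.2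
  have hD : ∀ f, A.IsEnd f → ∃ F : DD (pData A), ∀ v, (F : Module.End ℂ A.H1) v = f v := by
    intro f hf
    exact ⟨⟨IsLinearMap.mk' f hf.linear, isDRB_of_isEnd A _ hf⟩, fun _ => rfl⟩
  have hmulD : ∀ (f g : DD (pData A)) v, ((f * g : DD (pData A)) : Module.End ℂ A.H1) v =
    (f : Module.End ℂ A.H1) ((g : Module.End ℂ A.H1) v) := fun _ _ _ => rfl
  have hextD : ∀ f g : DD (pData A), (∀ v, (f : Module.End ℂ A.H1) v =
      (g : Module.End ℂ A.H1) v) → f = g := fun f g h => Subtype.ext (LinearMap.ext h)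
  have halg : ∀ (q : ℚ) (f : DD (pData A)) v,
      ((algebraMap ℚ (DD (pData A)) q * f : DD (pData A)) : Module.End ℂ A.H1) v =
      (q : ℂ) • (f : Module.End ℂ A.H1) v := by
    intro q f v
    have h1 : algebraMap ℚ (DD (pData A)) q * f = q • f := (Algebra.smul_def q f).symm
    rw [h1]
    show q • ((f : Module.End ℂ A.H1) v) = _
    rw [← algebraMap_smul ℂ q]
    rfl
  have hnc' : ∃ x y : DD (pData A), x * y ≠ y * x := by
    obtain ⟨f, h, hf, hh, v, hv⟩ := hnc
    obtain ⟨F, hF⟩ := hD f hf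
    obtain ⟨G, hG⟩ := hD h hh
    refine ⟨F, G, fun hFG => hv ?_⟩
    have h1 := congrArg (fun x : DD (pData A) => (x : Module.End ℂ A.H1) v) hFG
    simp only [hmulD] at h1
    rwa [hF, hG, hG, hF] at h1
  obtain ⟨htr, z, hz0, hzc, hsz, ⟨q, hq⟩, hcen⟩ := albert' s hinv φ hp hp2
    (by rw [finrank_Q, hg]) hnc'
  have hzz : ∀ v, (z : Module.End ℂ A.H1) ((z : Module.End ℂ A.H1) v) = (q : ℂ) • v := by
    intro v
    rw [← hmulD, hq]
    have := halg q 1 v
    rw [mul_one] at this
    rw [this]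
    rfl
  have hinj : ∀ f, A.IsEnd f → (∃ v, f v ≠ 0) → Function.Injective f := fun f hf hv =>
    hs f hf hv
  have hadjz : ∀ u v, A.pol ((z : Module.End ℂ A.H1) u) v =
      - A.pol u ((z : Module.End ℂ A.H1) v) := by
    intro u v
    have h1 := hadj z u v
    rw [hsz] at h1
    have h2 : ((-z : DD (pData A)) : Module.End ℂ A.H1) v = - (z : Module.End ℂ A.H1) v := rfl
    rw [h2, map_neg] at h1
    exact h1
  -- `q < 0`
  have hzne : ∃ v, (z : Module.End ℂ A.H1) v ≠ 0 := by
    by_contra hcon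
    push Not at hcon
    exact hz0 (hextD _ _ fun v => by rw [hcon]; rfl)
  have hzinj := hinj _ (hendD z) hzne
  have hq0 : q ≠ 0 := by
    rintro rfl
    obtain ⟨v, hv⟩ := hzne
    have h1 := hzz v
    rw [Rat.cast_zero, zero_smul] at h1
    apply hv
    apply hzinj
    rw [h1, map_zero]
  obtain ⟨c, hc⟩ : ∃ c : ℂ, c * c = q := by
    obtain ⟨c, hc⟩ := IsAlgClosed.exists_pow_nat_eq (q : ℂ) (n := 2) (by norm_num)
    exact ⟨c, by rw [← hc, sq]⟩
  have hcc : conj c = -c := by
    obtain ⟨u, hu⟩ := hzne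
    have hmz : ∀ (t : ℂ) (v : A.H1), (z : Module.End ℂ A.H1) v = t • v →
        ((-z : DD (pData A)) : Module.End ℂ A.H1) v = (-t) • v := by
      intro t v hv
      have h2 : ((-z : DD (pData A)) : Module.End ℂ A.H1) v = - (z : Module.End ℂ A.H1) v := rfl
      rw [h2, hv, neg_smul]
    have hadj' : ∀ u v, (pData A).ψ ((z : Module.End ℂ A.H1) u) v =
        (pData A).ψ u (((-z : DD (pData A)) : Module.End ℂ A.H1) v) := by
      intro u v
      rw [← hsz]
      exact hadj z u v
    by_cases h1 : (z : Module.End ℂ A.H1) u + c • u = 0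
    · have h2 : (z : Module.End ℂ A.H1) u = (-c) • u := by
        rw [neg_smul]
        exact eq_neg_of_add_eq_zero_left h1
      have hu0 : u ≠ 0 := by
        rintro rfl
        exact hu (map_zero _)
      have h3 := eig_conj A _ _ (hendD z) (hendD (-z)) hadj' hu0 h2 (hmz _ _ h2)
      rw [map_neg, neg_neg] at h3
      have h4 := congrArg (fun t => -t) h3
      simp only [neg_neg] at h4
      exact h4.symm
    · have h2 : (z : Module.End ℂ A.H1) ((z : Module.End ℂ A.H1) u + c • u) =
          c • ((z : Module.End ℂ A.H1) u + c • u) := by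
        rw [map_add, map_smul, hzz, smul_add, smul_smul, hc, add_comm]
      exact (eig_conj A _ _ (hendD z) (hendD (-z)) hadj' h1 h2 (hmz _ _ h2)).symm
  have hqneg : q < 0 := by
    have h1 : c.re = 0 := by
      have h2 := congrArg Complex.re hcc
      rw [Complex.conj_re, Complex.neg_re] at h2
      linarith
    have h3 := congrArg Complex.re hc
    rw [Complex.mul_re, h1, mul_zero, zero_sub, Complex.ratCast_re] at h3
    have h4 : (q : ℝ) ≤ 0 := by rw [← h3]; nlinarith [mul_self_nonneg c.im]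
    have h5 : q ≤ 0 := by exact_mod_cast h4
    exact lt_of_le_of_ne h5 hq0
  refine ⟨-q, (z : Module.End ℂ A.H1), {
    prime := hp
    two := hp2
    dim := hg
    pos := by linarith
    endo := hendD z
    sq := fun v => by rw [hzz]; push_cast; rw [neg_neg]
    comm := fun f hf v => ?_
    adj := hadjz
    center := fun f hf hfc => ?_
    inj := hinj
    trans := fun u v hu hu0 hv => ?_
    nc := hnc }⟩
  · obtain ⟨F, hF⟩ := hD f hf
    have h1 := congrArg (fun x : DD (pData A) => (x : Module.End ℂ A.H1) v) (hzc F)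
    simp only [hmulD] at h1
    rw [← hF, h1, hF]
  · obtain ⟨F, hF⟩ := hD f hf
    obtain ⟨a, b, hab⟩ := hcen F (fun x => hextD _ _ fun v => by
      rw [hmulD, hmulD, hF, hF]
      exact (hfc _ (hendD x) v).symm)
    refine ⟨a, b, fun v => ?_⟩
    rw [← hF, hab]
    have h1 := halg a 1 v
    rw [mul_one] at h1
    have h2 : ((algebraMap ℚ (DD (pData A)) a + algebraMap ℚ (DD (pData A)) b * z :
        DD (pData A)) : Module.End ℂ A.H1) v = ((algebraMap ℚ (DD (pData A)) a :
        DD (pData A)) : Module.End ℂ A.H1) v + ((algebraMap ℚ (DD (pData A)) b * z :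
        DD (pData A)) : Module.End ℂ A.H1) v := rfl
    rw [h2, halg, h1]
    rfl
  · obtain ⟨f, hf⟩ := htr ⟨u, (mem_pData_Q A u).2 hu⟩ ⟨v, (mem_pData_Q A v).2 hv⟩
      (fun h => hu0 (congrArg Subtype.val h))
    refine ⟨(f : Module.End ℂ A.H1), hendD f, ?_⟩
    have h1 := congrArg Subtype.val hf
    exact (hφ f ⟨u, (mem_pData_Q A u).2 hu⟩).symm.trans h1

end Pool.Agent.PSQ
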