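import Pool.Agent.PSQ.St

/-!
# PSQ: assembly of the algebra part (M20)
-/

set_option autoImplicit false

namespace PSQ

open Matrix Module Pool.Agent.Helper7

theorem thm_Alg (hSpl : St_Spl) (hFrm : St_Frm) (hGl : St_Gl) : St_Alg := by
  intro ι _ _ ψ 𝓓 J d p _ 𝔤 hD hG hT
  obtain ⟨z, hz⟩ : ∃ z : ℂ, z ^ 2 = -(d : ℂ) := by
    obtain ⟨z, hz⟩ := IsAlgClosed.exists_pow_nat_eq (-(d : ℂ)) (n := 2) (by norm_num)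
    exact ⟨z, hz⟩
  obtain ⟨σ, x, E, hE⟩ := hSpl ι ψ 𝓓 J d p 𝔤 z hD hG.toGA0 hz
  obtain ⟨e, he⟩ := hFrm ι ψ 𝓓 J d p 𝔤 z σ x E hD hG hE
  exact ⟨z, e, he, hGl ι ψ 𝓓 J d p 𝔤 z e hG.toGA0 he hT⟩

end PSQ
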