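import Pool.Agent.PSQ.Defs
import Pool.Agent.Helper7.Family3

/-!
# PSQ: the Lie algebra of symmetries of a de Rham-Betti class in matrix form
-/

set_option autoImplicit false

namespace PSQ

open Matrix Module Pool.Agent.Helper7

section

variable {κ : Type} [Fintype κ] [DecidableEq κ] {ϖ : ℂ}

/-- Endomorphisms in the Betti basis. -/
noncomputable def tl (P : PData κ ϖ) [DecidableEq P.ι] (M : Matrix P.ι P.ι ℂ) :
    Module.End ℂ (κ → ℂ) := Matrix.toLin P.bB P.bB M

/-- The de Rham-Betti endomorphisms as rational matrices. -/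
def DM (P : PData κ ϖ) [DecidableEq P.ι] : Set (Matrix P.ι P.ι ℚ) :=
  {f | IsDRB P P (tl P (cc f))}

/-- The matrix of the polarisation. -/
def IsPsi (P : PData κ ϖ) (ψ : Matrix P.ι P.ι ℚ) : Prop :=
  ∀ i j, P.ψ (P.bB i) (P.bB j) = ϖ * (ψ i j : ℂ)

/-- The product of `n` copies. -/
abbrev W (κ : Type) (n : ℕ) : Type := HW (fun _ : Unit => κ) (fun _ => n)

/-- `X` is an infinitesimal symmetry of `α`. -/
def Inv (P : PData κ ϖ) (n k : ℕ) (α : MultilinearMap ℂ (fun _ : Fin (2 * k) => W κ n) ℂ)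
    (X : Module.End ℂ (κ → ℂ)) (c : ℂ) : Prop :=
  IsInv (fun _ : Unit => n) (fun _ => P) α (fun _ => X, c)

/-- The Lie algebra of infinitesimal symmetries in matrix form. -/
noncomputable def gM (P : PData κ ϖ) [DecidableEq P.ι] (n k : ℕ)
    (α : MultilinearMap ℂ (fun _ : Fin (2 * k) => W κ n) ℂ) :
    Submodule ℂ (Matrix P.ι P.ι ℂ × ℂ) where
  carrier := {X | Inv P n k α (tl P X.1) X.2}
  add_mem' {X Y} hX hY := by
    have h := IsInv.add _ _ _ hX hY
    have e : ((fun _ : Unit => tl P (X + Y).1, (X + Y).2) : GG (fun _ : Unit => κ)) =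
        ((fun _ => tl P X.1, X.2) : GG (fun _ : Unit => κ)) + (fun _ => tl P Y.1, Y.2) := by
      refine Prod.ext ?_ rfl
      funext u
      exact map_add (Matrix.toLin P.bB P.bB) X.1 Y.1
    show IsInv _ _ _ _
    rw [e]
    exact h
  zero_mem' := by
    have h := IsInv.zero (fun _ : Unit => n) (fun _ => P) α
    have e : ((fun _ : Unit => tl P (0 : Matrix P.ι P.ι ℂ × ℂ).1, (0 : Matrix P.ι P.ι ℂ × ℂ).2) :
        GG (fun _ : Unit => κ)) = 0 := by
      refine Prod.ext ?_ rfl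
      funext u
      exact map_zero (Matrix.toLin P.bB P.bB)
    show IsInv _ _ _ _
    rw [e]
    exact h
  smul_mem' c X hX := by
    have h := IsInv.smul (fun _ : Unit => n) (fun _ => P) α c hX
    have e : ((fun _ : Unit => tl P (c • X).1, (c • X).2) : GG (fun _ : Unit => κ)) =
        c • ((fun _ => tl P X.1, X.2) : GG (fun _ : Unit => κ)) := by
      refine Prod.ext ?_ rfl
      funext u
      exact map_smul (Matrix.toLin P.bB P.bB) c X.1
    show IsInv _ _ _ _
    rw [e]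
    exact h

lemma mem_gM (P : PData κ ϖ) [DecidableEq P.ι] (n k : ℕ)
    (α : MultilinearMap ℂ (fun _ : Fin (2 * k) => W κ n) ℂ) (X : Matrix P.ι P.ι ℂ × ℂ) :
    X ∈ gM P n k α ↔ Inv P n k α (tl P X.1) X.2 := Iff.rfl

/-- `α` is rational on Betti vectors, up to `ϖ ^ k`. -/
def BetR (P : PData κ ϖ) (n k : ℕ) (α : MultilinearMap ℂ (fun _ : Fin (2 * k) => W κ n) ℂ) : Prop :=
  ∀ v : Fin (2 * k) → W κ n, (∀ r, IsRatP (fun _ : Unit => n) (fun _ => P) (v r)) →
    ∃ q : ℚ, α v = ϖ ^ k * q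

/-- `α` is algebraic on algebraic vectors. -/
def DRA (n k : ℕ) (α : MultilinearMap ℂ (fun _ : Fin (2 * k) => W κ n) ℂ) : Prop :=
  ∀ v : Fin (2 * k) → W κ n, (∀ r i m j, IsAlgebraic ℚ (v r i m j)) → IsAlgebraic ℚ (α v)

end

end PSQ
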