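import Mathlib

/-!
# PSQ: Lie algebras of tensor symmetries and division algebras of prime degree (definitions)

`ι` indexes a rational basis of the first homology, `ψ` is the matrix of the polarisation, `𝓓` the
set of matrices of the endomorphisms, `J` a generator of its centre, `𝔤` the complex Lie algebra of
pairs (infinitesimal symmetry, multiplier).
-/

set_option autoImplicit false

namespace PSQ

open Matrix Module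

section basic

variable {ι : Type} [Fintype ι] [DecidableEq ι]

/-- Complexification of a rational matrix. -/
noncomputable def cc : Matrix ι ι ℚ →+* Matrix ι ι ℂ := (algebraMap ℚ ℂ).mapMatrix

/-- The matrices which commute with `𝓓`. -/
def IsC (𝓓 : Set (Matrix ι ι ℚ)) (Z : Matrix ι ι ℂ) : Prop := ∀ f ∈ 𝓓, Z * cc f = cc f * Z

/-- The division algebra: `𝓓` is a central division algebra of degree `p` over `ℚ(J)`, of dimension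
`card ι = 2 p²`, and its involution is of the second kind. -/
structure DA (ψ : Matrix ι ι ℚ) (𝓓 : Set (Matrix ι ι ℚ)) (J : Matrix ι ι ℚ) (d : ℚ) (p : ℕ) :
    Prop where
  prime : p.Prime
  card : Fintype.card ι = 2 * p ^ 2
  nd : ψ.det ≠ 0
  dpos : 0 < d
  JD : J ∈ 𝓓
  J2 : J * J = -(d • (1 : Matrix ι ι ℚ))
  Jpsi : Jᵀ * ψ = -(ψ * J)
  Jc : ∀ f ∈ 𝓓, f * J = J * f
  sub : ∀ f ∈ 𝓓, ∀ g ∈ 𝓓, f - g ∈ 𝓓
  mul : ∀ f ∈ 𝓓, ∀ g ∈ 𝓓, f * g ∈ 𝓓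
  trans : ∀ v w : ι → ℚ, v ≠ 0 → ∃ f ∈ 𝓓, f *ᵥ v = w
  div : ∀ f ∈ 𝓓, f ≠ 0 → f.det ≠ 0
  nc : ∃ f ∈ 𝓓, ∃ g ∈ 𝓓, f * g ≠ g * f
  cen : ∀ f ∈ 𝓓, (∀ g ∈ 𝓓, f * g = g * f) → ∃ x y : ℚ, f = x • (1 : Matrix ι ι ℚ) + y • J

/-- The Lie algebra of symmetries, first properties. -/
structure GA0 (ψ : Matrix ι ι ℚ) (𝓓 : Set (Matrix ι ι ℚ)) (𝔤 : Submodule ℂ (Matrix ι ι ℂ × ℂ)) :
    Prop where
  alt : ψᵀ = -ψ
  nd : ψ.det ≠ 0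
  one : ((1 : Matrix ι ι ℂ), (2 : ℂ)) ∈ 𝔤
  br : ∀ X ∈ 𝔤, ∀ Y ∈ 𝔤, (X.1 * Y.1 - Y.1 * X.1, (0 : ℂ)) ∈ 𝔤
  comm : ∀ X ∈ 𝔤, IsC 𝓓 X.1
  pol : ∀ X ∈ 𝔤, X.1ᵀ * cc ψ + cc ψ * X.1 = X.2 • cc ψ
  rat : ∀ X ∈ 𝔤, X ∈ Submodule.span ℂ
    {Z | Z ∈ 𝔤 ∧ ∃ (A : Matrix ι ι ℚ) (μ : ℚ), Z = (cc A, (μ : ℂ))}
  com2 : ∀ f : Matrix ι ι ℚ,
    (∀ (A : Matrix ι ι ℚ) (μ : ℚ), (cc A, (μ : ℂ)) ∈ 𝔤 → A * f = f * A) → f ∈ 𝓓

/-- Replicas: `𝔤` contains the replicas of its semisimple elements with multiplier zero. -/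
def Repl (𝔤 : Submodule ℂ (Matrix ι ι ℂ × ℂ)) : Prop :=
  ∀ (τ : Type) [Fintype τ] [DecidableEq τ] (E : τ → Matrix ι ι ℂ) (x : τ → ℂ)
    (φ : ℂ →ₗ[ℚ] ℂ), (∀ a b, E a * E b = if a = b then E a else 0) → ∑ a, E a = 1 →
    (∑ a, x a • E a, (0 : ℂ)) ∈ 𝔤 → (∑ a, φ (x a) • E a, (0 : ℂ)) ∈ 𝔤

/-- The Lie algebra of symmetries. -/
structure GA (ψ : Matrix ι ι ℚ) (𝓓 : Set (Matrix ι ι ℚ)) (𝔤 : Submodule ℂ (Matrix ι ι ℂ × ℂ)) :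
    Prop extends GA0 ψ 𝓓 𝔤 where
  rep : Repl 𝔤

/-- Spectral decomposition of the rational matrix `Z` on the `z`-eigenspace of `J`. -/
structure Spec (J Z : Matrix ι ι ℚ) (z : ℂ) (S : Finset ℂ) (F : ℂ → Matrix ι ι ℂ) : Prop where
  ne : ∀ x ∈ S, F x ≠ 0
  ZF : ∀ x ∈ S, cc Z * F x = x • F x
  JF : ∀ x ∈ S, cc J * F x = z • F x
  orth : ∀ x ∈ S, ∀ y ∈ S, F x * F y = if x = y then F x else 0
  sum : ∑ x ∈ S, F x = (1 / 2 : ℂ) • (1 + z⁻¹ • cc J)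
  com : ∀ W : Matrix ι ι ℂ, W * cc Z = cc Z * W → W * cc J = cc J * W →
    ∀ x ∈ S, W * F x = F x * W
  gal : ∀ σ : ℂ ≃+* ℂ, σ z = z → ∀ x ∈ S, σ x ∈ S ∧ (F x).map σ = F (σ x)

/-- The splitting: `E true i`, `E false i` are orthogonal projectors to `p`-dimensional spaces,
permuted by `σ`, dual to each other for `ψ`, and `𝓓` acts irreducibly on their images. -/
structure Spl (ψ : Matrix ι ι ℚ) (𝓓 : Set (Matrix ι ι ℚ)) (J : Matrix ι ι ℚ) (d : ℚ) (p : ℕ)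
    [NeZero p] (𝔤 : Submodule ℂ (Matrix ι ι ℂ × ℂ)) (z : ℂ) (σ : ℂ ≃+* ℂ) (x : ZMod p → ℂ)
    (E : Bool → ZMod p → Matrix ι ι ℂ) : Prop where
  z2 : z ^ 2 = -(d : ℂ)
  sz : σ z = z
  inj : Function.Injective x
  sx : ∀ i, σ (x i) = x (i + 1)
  orth : ∀ s i t j, E s i * E t j = if s = t ∧ i = j then E s i else 0
  sum : ∑ s, ∑ i, E s i = 1
  com : ∀ s i, IsC 𝓓 (E s i)
  Jt : ∀ i, cc J * E true i = z • E true i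
  Jf : ∀ i, cc J * E false i = (-z) • E false i
  dual : ∀ i, (E true i)ᵀ * cc ψ = cc ψ * E false i
  tr : ∀ s i, (E s i).trace = p
  sE : ∀ s i, (E s i).map σ = E s (i + 1)
  cent : ∀ Z : Matrix ι ι ℂ, IsC 𝓓 Z → (∀ s i, Z * E s i = E s i * Z) →
    ∀ s i, ∃ c : ℂ, Z * E s i = c • E s i
  Yg : (∑ i, x i • (E true i - E false i), (0 : ℂ)) ∈ 𝔤
  Yr : ∃ Y : Matrix ι ι ℚ, cc Y = ∑ i, x i • (E true i - E false i)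

/-- The frame: a symplectic basis in which `𝔤` acts through `gl_p ⊗ 1`, and contains `sl_p ⊗ 1`. -/
structure Fr (ψ J : Matrix ι ι ℚ) (d : ℚ) (p : ℕ) (𝔤 : Submodule ℂ (Matrix ι ι ℂ × ℂ)) (z : ℂ)
    (e : Basis (Bool × Fin p × Fin p) ℂ (ι → ℂ)) : Prop where
  z2 : z ^ 2 = -(d : ℂ)
  Jt : ∀ i μ, cc J *ᵥ e (true, i, μ) = z • e (true, i, μ)
  Jf : ∀ i μ, cc J *ᵥ e (false, i, μ) = (-z) • e (false, i, μ)
  pair : ∀ i μ j ν, e (true, i, μ) ⬝ᵥ cc ψ *ᵥ e (false, j, ν) = if i = j ∧ μ = ν then 1 else 0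
  iso : ∀ s i μ j ν, e (s, i, μ) ⬝ᵥ cc ψ *ᵥ e (s, j, ν) = 0
  act : ∀ X ∈ 𝔤, ∃ y : Matrix (Fin p) (Fin p) ℂ,
    (∀ j μ, X.1 *ᵥ e (true, j, μ) = ∑ i, y i j • e (true, i, μ)) ∧
    ∀ i μ, X.1 *ᵥ e (false, i, μ) = X.2 • e (false, i, μ) - ∑ j, y i j • e (false, j, μ)
  sl : ∀ y : Matrix (Fin p) (Fin p) ℂ, y.trace = 0 → ∃ X ∈ 𝔤, X.2 = 0 ∧
    ∀ j μ, X.1 *ᵥ e (true, j, μ) = ∑ i, y i j • e (true, i, μ)

end basic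

end PSQ
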