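import Mathlib

set_option autoImplicit false

/-!
# PSQ / Square

The dimension of a central division algebra is a square.
-/

namespace Pool.Agent.PSQ

open Module TensorProduct

variable {F K D : Type*} [Field K] [Field F] [Algebra K F] [DivisionRing D] [Algebra K D]

/-- a nonzero two-sided ideal of `F ⊗ D` is everything -/
theorem tensor_simple (hcen : ∀ d : D, (∀ x : D, x * d = d * x) → ∃ k : K, d = algebraMap K D k) :
    IsSimpleRing (F ⊗[K] D) := by
  classical
  have hnt : Nontrivial (F ⊗[K] D) := by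
    obtain ⟨b⟩ := Basis.ofVectorSpace K F |>.reindex (Equiv.refl _) |> fun b => Nonempty.intro b
    have e := TensorProduct.equivFinsuppOfBasisLeft (N := D) b
    have : Nontrivial (Basis.ofVectorSpaceIndex K F →₀ D) := by
      have : Nonempty (Basis.ofVectorSpaceIndex K F) := b.index_nonempty
      infer_instance
    exact e.toEquiv.nontrivial
  refine ⟨⟨fun I => ?_⟩⟩
  by_cases hI : I = ⊥
  · exact Or.inl hI
  right
  let b := Basis.ofVectorSpace K F
  let e := TensorProduct.equivFinsuppOfBasisLeft (N := D) b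
  -- coordinates of products
  have hr : ∀ (u : F ⊗[K] D) (x : D) i, e (u * (1 ⊗ₜ x)) i = e u i * x := by
    intro u x i
    induction u with
    | zero => simp
    | tmul a d =>
      rw [Algebra.TensorProduct.tmul_mul_tmul, mul_one,
        TensorProduct.equivFinsuppOfBasisLeft_apply_tmul_apply,
        TensorProduct.equivFinsuppOfBasisLeft_apply_tmul_apply, smul_mul_assoc]
    | add u v hu hv => rw [add_mul, map_add, map_add, Finsupp.add_apply, hu, hv, Finsupp.add_apply,
        add_mul]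
  have hl : ∀ (u : F ⊗[K] D) (x : D) i, e ((1 ⊗ₜ x) * u) i = x * e u i := by
    intro u x i
    induction u with
    | zero => simp
    | tmul a d =>
      rw [Algebra.TensorProduct.tmul_mul_tmul, one_mul,
        TensorProduct.equivFinsuppOfBasisLeft_apply_tmul_apply,
        TensorProduct.equivFinsuppOfBasisLeft_apply_tmul_apply, mul_smul_comm]
    | add u v hu hv => rw [mul_add, map_add, map_add, Finsupp.add_apply, hu, hv, Finsupp.add_apply,
        mul_add]
  -- an element of minimal support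
  obtain ⟨u0, hu0, hu0n⟩ : ∃ u ∈ I, u ≠ 0 := by
    by_contra hcon
    push Not at hcon
    apply hI
    rw [eq_bot_iff]
    intro x hx
    rw [TwoSidedIdeal.mem_bot]
    exact hcon x hx
  obtain ⟨n, hn⟩ : ∃ n, n = sInf {n | ∃ u ∈ I, u ≠ 0 ∧ (e u).support.card = n} := ⟨_, rfl⟩
  have hne : {n | ∃ u ∈ I, u ≠ 0 ∧ (e u).support.card = n}.Nonempty :=
    ⟨_, u0, hu0, hu0n, rfl⟩
  obtain ⟨u, hu, hun, hus⟩ := Nat.sInf_mem hne
  rw [← hn] at hus
  have hmin : ∀ v ∈ I, (e v).support.card < n → v = 0 := by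
    intro v hv hlt
    by_contra hv0
    have : sInf {n | ∃ u ∈ I, u ≠ 0 ∧ (e u).support.card = n} ≤ (e v).support.card :=
      Nat.sInf_le ⟨v, hv, hv0, rfl⟩
    omega
  have heu : e u ≠ 0 := fun h => hun (e.injective (by rw [h, map_zero]))
  obtain ⟨i0, hi0⟩ := Finsupp.support_nonempty_iff.2 heu
  rw [Finsupp.mem_support_iff] at hi0
  obtain ⟨u', hu'⟩ : ∃ u' : F ⊗[K] D, u' = u * (1 ⊗ₜ (e u i0)⁻¹) := ⟨_, rfl⟩
  have hu'I : u' ∈ I := by rw [hu']; exact I.mul_mem_right _ _ hu
  have hu'c : ∀ i, e u' i = e u i * (e u i0)⁻¹ := fun i => by rw [hu', hr]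
  have hu'1 : e u' i0 = 1 := by rw [hu'c, mul_inv_cancel₀ hi0]
  have hsupp : (e u').support ⊆ (e u).support := by
    intro i hi
    rw [Finsupp.mem_support_iff] at hi ⊢
    intro h
    apply hi
    rw [hu'c, h, zero_mul]
  -- the coordinates are central
  have hcomm : ∀ x : D, ∀ i, x * e u' i = e u' i * x := by
    intro x i
    have hv : (1 ⊗ₜ x) * u' - u' * (1 ⊗ₜ x) ∈ I :=
      I.sub_mem (I.mul_mem_left _ _ hu'I) (I.mul_mem_right _ _ hu'I)
    have hvc : ∀ i, e ((1 ⊗ₜ x) * u' - u' * (1 ⊗ₜ x)) i = x * e u' i - e u' i * x := by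
      intro i
      rw [map_sub, Finsupp.sub_apply, hl, hr]
    have hv0 : (1 ⊗ₜ x) * u' - u' * (1 ⊗ₜ x) = 0 := by
      apply hmin _ hv
      rw [← hus]
      refine Finset.card_lt_card ?_
      rw [Finset.ssubset_iff_of_subset]
      · refine ⟨i0, Finsupp.mem_support_iff.2 hi0, ?_⟩
        rw [Finsupp.mem_support_iff, not_not, hvc, hu'1, mul_one, one_mul, sub_self]
      · intro i hi
        apply hsupp
        rw [Finsupp.mem_support_iff] at hi ⊢
        intro h
        apply hi
        rw [hvc, h, mul_zero, zero_mul, sub_zero]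
    have := hvc i
    rw [hv0, map_zero, Finsupp.zero_apply] at this
    exact (sub_eq_zero.1 this.symm)
  choose k hk using fun i => hcen (e u' i) (fun x => hcomm x i)
  -- `u' = c ⊗ 1`
  obtain ⟨c, hc⟩ : ∃ c : F, u' = c ⊗ₜ (1 : D) := by
    refine ⟨∑ i ∈ (e u').support, k i • b i, ?_⟩
    have h1 : (TensorProduct.equivFinsuppOfBasisLeft b).symm (e u') = u' := e.symm_apply_apply u'
    rw [TensorProduct.equivFinsuppOfBasisLeft_symm_apply, Finsupp.sum] at h1
    refine h1.symm.trans ?_
    rw [TensorProduct.sum_tmul]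
    refine Finset.sum_congr rfl fun i _ => ?_
    rw [hk i, Algebra.algebraMap_eq_smul_one, TensorProduct.tmul_smul, TensorProduct.smul_tmul']
  have hc0 : c ≠ 0 := by
    intro h
    rw [h, TensorProduct.zero_tmul] at hc
    rw [hc, map_zero, Finsupp.zero_apply] at hu'1
    exact zero_ne_one hu'1
  have h1 : (1 : F ⊗[K] D) ∈ I := by
    have h2 : (c⁻¹ ⊗ₜ (1 : D)) * u' ∈ I := I.mul_mem_left _ _ hu'I
    rw [hc, Algebra.TensorProduct.tmul_mul_tmul, inv_mul_cancel₀ hc0, mul_one] at h2
    exact h2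
  rw [eq_top_iff]
  intro x _
  have := I.mul_mem_left x 1 h1
  rwa [mul_one] at this

/-- the dimension of a central division algebra is a square -/
theorem finrank_sq [Module.Finite K D]
    (hcen : ∀ d : D, (∀ x : D, x * d = d * x) → ∃ k : K, d = algebraMap K D k) :
    ∃ m : ℕ, finrank K D = m ^ 2 := by
  have := tensor_simple (F := AlgebraicClosure K) hcen
  obtain ⟨n, hn, ⟨e⟩⟩ := IsSimpleRing.exists_algEquiv_matrix_of_isAlgClosed (AlgebraicClosure K)
    (AlgebraicClosure K ⊗[K] D)
  refine ⟨n, ?_⟩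
  rw [← Module.finrank_baseChange (R := AlgebraicClosure K) (M' := D), e.toLinearEquiv.finrank_eq,
    Module.finrank_matrix]
  simp [sq]

end Pool.Agent.PSQ
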